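import Pool.Agent.Run7.h283.NW.Fin
import Pool.Agent.Run7.h510.G.Bases

/-!
# The group of the Wieferich bases of a number field

The elements of `Kˣ` for which all but finitely many primes of `K` are Wieferich primes form a
subgroup which is closed under roots.
-/

set_option autoImplicit false

namespace Run7.h128.NW

open NumberField IsDedekindDomain
open scoped WithZero
open Run7.h283.NW (NonWieferich discrete fermat norm_wief exists_place)

section Field

variable {K : Type} [Field K] [NumberField K]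

lemma val_eq_one_iff (v : HeightOneSpectrum (𝓞 K)) (a : 𝓞 K) :
    v.valuation K (algebraMap (𝓞 K) K a) = 1 ↔ a ∉ v.asIdeal := by
  rw [v.valuation_of_algebraMap]
  exact v.intValuation_eq_one_iff_mem_primeCompl a

lemma fin_mem {a : 𝓞 K} (ha : a ≠ 0) : {v : HeightOneSpectrum (𝓞 K) | a ∈ v.asIdeal}.Finite := by
  have h : (Ideal.span {a} : Ideal (𝓞 K)) ≠ 0 := by
    rw [Ne, Ideal.zero_eq_bot, Ideal.span_singleton_eq_bot]
    exact ha
  refine (Ideal.finite_factors h).subset fun v hv => ?_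
  simp only [Set.mem_setOf_eq] at hv ⊢
  exact Ideal.dvd_span_singleton.2 hv

/-- an element `≠ 0` is a unit at all but finitely many primes -/
lemma fin_nonunit {x : K} (hx : x ≠ 0) :
    {v : HeightOneSpectrum (𝓞 K) | v.valuation K x ≠ 1}.Finite := by
  obtain ⟨a, b, hb, rfl⟩ := IsFractionRing.div_surjective (A := 𝓞 K) x
  have hb0 : b ≠ 0 := nonZeroDivisors.ne_zero hb
  have ha0 : a ≠ 0 := by
    rintro rfl
    simp at hx
  refine ((fin_mem ha0).union (fin_mem hb0)).subset fun v hv => ?_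
  simp only [Set.mem_setOf_eq, Set.mem_union] at hv ⊢
  by_contra hcon
  push Not at hcon
  apply hv
  rw [map_div₀, (val_eq_one_iff v a).2 hcon.1, (val_eq_one_iff v b).2 hcon.2, div_one]

/-- the difference `α ^ (N v - 1) - 1` for a unit `α` which is a Wieferich base at `v` -/
lemma wief_le {v : HeightOneSpectrum (𝓞 K)} {α : K} (hα : v.valuation K α = 1)
    (h : ¬ NonWieferich K α v) :
    v.valuation K (α ^ (Ideal.absNorm v.asIdeal - 1) - 1) ≤ WithZero.exp (-2 : ℤ) :=
  discrete (fermat v hα) fun h2 => h ⟨hα, h2⟩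

lemma not_nonWief {v : HeightOneSpectrum (𝓞 K)} {α : K}
    (h : v.valuation K (α ^ (Ideal.absNorm v.asIdeal - 1) - 1) ≤ WithZero.exp (-2 : ℤ)) :
    ¬ NonWieferich K α v := by
  rintro ⟨-, h2⟩
  rw [h2, WithZero.exp_le_exp] at h
  omega

lemma nonWief_mul {v : HeightOneSpectrum (𝓞 K)} {α β : K} (hα : v.valuation K α = 1)
    (hβ : v.valuation K β = 1) (h1 : ¬ NonWieferich K α v) (h2 : ¬ NonWieferich K β v) :
    ¬ NonWieferich K (α * β) v := by
  apply not_nonWief
  set n := Ideal.absNorm v.asIdeal - 1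
  have e : (α * β) ^ n - 1 = (α ^ n - 1) * β ^ n + (β ^ n - 1) := by rw [mul_pow]; ring
  rw [e]
  refine (Valuation.map_add _ _ _).trans (max_le ?_ (wief_le hβ h2))
  rw [map_mul, map_pow, hβ, one_pow, mul_one]
  exact wief_le hα h1

lemma nonWief_inv {v : HeightOneSpectrum (𝓞 K)} {α : K} (hα : v.valuation K α = 1)
    (h1 : ¬ NonWieferich K α v) : ¬ NonWieferich K α⁻¹ v := by
  apply not_nonWief
  set n := Ideal.absNorm v.asIdeal - 1
  have h0 : α ≠ 0 := by
    rintro rfl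
    rw [map_zero] at hα
    exact zero_ne_one hα
  have e : (α⁻¹) ^ n - 1 = -((α ^ n - 1) * (α⁻¹) ^ n) := by
    rw [inv_pow]
    field_simp
    ring
  rw [e, Valuation.map_neg, map_mul, map_pow, map_inv₀, hα, inv_one, one_pow, mul_one]
  exact wief_le hα h1

lemma nonWief_one (v : HeightOneSpectrum (𝓞 K)) : ¬ NonWieferich K 1 v := by
  apply not_nonWief
  rw [one_pow, sub_self, map_zero]
  exact zero_le

/-- an element congruent to one and its powers with exponent prime to `v` -/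
lemma root_core {v : HeightOneSpectrum (𝓞 K)} {y : K} (hlt : v.valuation K (y - 1) < 1) {k : ℕ}
    (hk : ((k : ℕ) : 𝓞 K) ∉ v.asIdeal) : v.valuation K (y ^ k - 1) = v.valuation K (y - 1) := by
  have hy1 : v.valuation K y = 1 := by
    have h : y = 1 + (y - 1) := by ring
    rw [h, Valuation.map_one_add_of_lt _ hlt]
  have hk1 : v.valuation K ((k : ℕ) : K) = 1 := by
    have := (val_eq_one_iff v ((k : ℕ) : 𝓞 K)).2 hk
    rwa [map_natCast] at this
  have hs : v.valuation K (∑ i ∈ Finset.range k, y ^ i) = 1 := by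
    have h3 : ∑ i ∈ Finset.range k, y ^ i = ((k : ℕ) : K) + ∑ i ∈ Finset.range k, (y ^ i - 1) := by
      rw [Finset.sum_sub_distrib]
      simp
    have h4 : v.valuation K (∑ i ∈ Finset.range k, (y ^ i - 1)) < 1 := by
      refine Valuation.map_sum_lt _ one_ne_zero fun i _ => ?_
      have h5 : y ^ i - 1 = (y - 1) * ∑ j ∈ Finset.range i, y ^ j := (mul_geom_sum y i).symm
      rw [h5, map_mul]
      have h6 : v.valuation K (∑ j ∈ Finset.range i, y ^ j) ≤ 1 :=
        Valuation.map_sum_le _ fun j _ => by rw [map_pow, hy1, one_pow]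
      calc v.valuation K (y - 1) * v.valuation K (∑ j ∈ Finset.range i, y ^ j)
          ≤ v.valuation K (y - 1) * 1 := mul_le_mul' le_rfl h6
        _ < 1 := by rw [mul_one]; exact hlt
    rw [h3, Valuation.map_add_eq_of_lt_left _ (by rw [hk1]; exact h4), hk1]
  rw [← mul_geom_sum, map_mul, hs, mul_one]

/-- roots, at the primes which do not divide the exponent -/
lemma nonWief_root {v : HeightOneSpectrum (𝓞 K)} {α : K} {k : ℕ} (hk : ((k : ℕ) : 𝓞 K) ∉ v.asIdeal)
    (hα : v.valuation K α = 1) (h : ¬ NonWieferich K (α ^ k) v) : ¬ NonWieferich K α v := by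
  apply not_nonWief
  have hle := wief_le (by rw [map_pow, hα, one_pow]) h
  rwa [← pow_mul, mul_comm k, pow_mul, root_core (fermat v hα) hk] at hle

lemma nonWief_pow {v : HeightOneSpectrum (𝓞 K)} {α : K} (hα : v.valuation K α = 1)
    (h : ¬ NonWieferich K α v) (k : ℕ) : ¬ NonWieferich K (α ^ k) v := by
  induction k with
  | zero => rw [pow_zero]; exact nonWief_one v
  | succ k ih =>
    rw [pow_succ]
    exact nonWief_mul (by rw [map_pow, hα, one_pow]) hα ih h

end Field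

/-- The units `α` of `K` such that all but finitely many primes of `K` are Wieferich primes for the
base `α`. -/
def W (K : Type) [Field K] [NumberField K] : Subgroup Kˣ where
  carrier := {α | {v : HeightOneSpectrum (𝓞 K) | NonWieferich K (α : K) v}.Finite}
  one_mem' := by
    have : {v : HeightOneSpectrum (𝓞 K) | NonWieferich K ((1 : Kˣ) : K) v} = ∅ := by
      ext v
      simp only [Set.mem_setOf_eq, Set.mem_empty_iff_false, iff_false, Units.val_one]
      exact nonWief_one v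
    simp only [Set.mem_setOf_eq]
    rw [this]
    exact Set.finite_empty
  mul_mem' := by
    intro α β hα hβ
    refine (((hα.union hβ).union (fin_nonunit α.ne_zero)).union
      (fin_nonunit β.ne_zero)).subset fun v hv => ?_
    simp only [Set.mem_union, Set.mem_setOf_eq] at hv ⊢
    by_contra hcon
    push Not at hcon
    obtain ⟨⟨⟨h1, h2⟩, h3⟩, h4⟩ := hcon
    rw [Units.val_mul] at hv
    exact nonWief_mul h3 h4 h1 h2 hv
  inv_mem' := by
    intro α hα
    refine (Set.Finite.union hα (fin_nonunit α.ne_zero)).subset fun v hv => ?_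
    simp only [Set.mem_union, Set.mem_setOf_eq] at hv ⊢
    by_contra hcon
    push Not at hcon
    rw [Units.val_inv_eq_inv_val] at hv
    exact nonWief_inv hcon.2 hcon.1 hv

section Field

variable {K : Type} [Field K] [NumberField K]

lemma mem_W {α : Kˣ} :
    α ∈ W K ↔ {v : HeightOneSpectrum (𝓞 K) | NonWieferich K (α : K) v}.Finite := Iff.rfl

/-- `W K` is closed under roots -/
lemma W_root {α : Kˣ} {k : ℕ} (hk : 0 < k) (h : α ^ k ∈ W K) : α ∈ W K := by
  have hk0 : ((k : ℕ) : 𝓞 K) ≠ 0 := by exact_mod_cast hk.ne'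
  refine ((Set.Finite.union (mem_W.1 h) (fin_nonunit α.ne_zero)).union (fin_mem hk0)).subset
    fun v hv => ?_
  simp only [Set.mem_union, Set.mem_setOf_eq] at hv ⊢
  by_contra hcon
  push Not at hcon
  obtain ⟨⟨h1, h2⟩, h3⟩ := hcon
  rw [Units.val_pow_eq_pow_val] at h1
  exact nonWief_root h3 h2 h1 hv

/-- `W K` contains the roots of unity -/
lemma W_torsion {α : Kˣ} {k : ℕ} (hk : 0 < k) (h : α ^ k = 1) : α ∈ W K :=
  W_root hk (h ▸ one_mem _)

/-- there are only finitely many places above the primes up to a bound -/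
lemma fin_above (B : ℕ) :
    {v : HeightOneSpectrum (𝓞 K) | ∃ p : ℕ, p.Prime ∧ p ≤ B ∧ (p : 𝓞 K) ∈ v.asIdeal}.Finite := by
  have h0 : ((B.factorial : ℕ) : 𝓞 K) ≠ 0 := by exact_mod_cast B.factorial_ne_zero
  refine (fin_mem h0).subset fun v hv => ?_
  obtain ⟨p, hp, hpB, hv⟩ := hv
  obtain ⟨c, hc⟩ := Nat.dvd_factorial hp.pos hpB
  simp only [Set.mem_setOf_eq]
  rw [hc, Nat.cast_mul]
  exact Ideal.mul_mem_right _ _ hv

lemma exists_below (v : HeightOneSpectrum (𝓞 K)) : ∃ p : ℕ, p.Prime ∧ (p : 𝓞 K) ∈ v.asIdeal := by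
  have h1 : ((Ideal.absNorm v.asIdeal : ℕ) : 𝓞 K) ∈ v.asIdeal := Ideal.absNorm_mem _
  have hn0 : Ideal.absNorm v.asIdeal ≠ 0 := by
    rw [Ne, Ideal.absNorm_eq_zero_iff]
    exact v.ne_bot
  generalize Ideal.absNorm v.asIdeal = n at h1 hn0
  induction n using Nat.recOnPrimePow with
  | zero => exact absurd rfl hn0
  | one =>
    exfalso
    apply v.isPrime.ne_top
    rw [Ideal.eq_top_iff_one]
    simpa using h1
  | prime_pow_mul a p n hp _ hn ih =>
    rw [Nat.cast_mul] at h1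
    rcases v.isPrime.mem_or_mem h1 with h | h
    · refine ⟨p, hp, ?_⟩
      rw [Nat.cast_pow] at h
      exact v.isPrime.mem_of_pow_mem _ h
    · exact ih h (right_ne_zero_of_mul hn0)

/-- elements of `W K` for large primes -/
lemma W_large {α : Kˣ} (h : α ∈ W K) : ∃ B : ℕ, ∀ p : ℕ, p.Prime → B < p →
    ∀ v : HeightOneSpectrum (𝓞 K), (p : 𝓞 K) ∈ v.asIdeal → ¬ NonWieferich K (α : K) v := by
  choose f hf using fun v : HeightOneSpectrum (𝓞 K) => exists_below v
  set S := (mem_W.1 h).toFinset with hS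
  refine ⟨S.sup f, fun p hp hlt v hv hn => ?_⟩
  have h1 : v ∈ S := by rw [hS, Set.Finite.mem_toFinset]; exact hn
  have h2 : f v ≤ S.sup f := Finset.le_sup h1
  have h3 : p = f v := by
    by_contra hne
    have h4 : Nat.Coprime p (f v) := (Nat.coprime_primes hp (hf v).1).2 hne
    have h5 : IsCoprime (p : ℤ) (f v : ℤ) := Nat.isCoprime_iff_coprime.2 h4
    obtain ⟨a, b, hab⟩ := h5
    apply v.isPrime.ne_top
    rw [Ideal.eq_top_iff_one]
    have h6 : (1 : 𝓞 K) = (a : 𝓞 K) * (p : 𝓞 K) + (b : 𝓞 K) * ((f v : ℕ) : 𝓞 K) := by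
      have := congrArg (Int.cast : ℤ → 𝓞 K) hab
      push_cast at this
      exact this.symm
    rw [h6]
    exact Ideal.add_mem _ (Ideal.mul_mem_left _ _ hv) (Ideal.mul_mem_left _ _ (hf v).2)
  omega

/-- conversely -/
lemma W_of_large {α : Kˣ} (B : ℕ) (h : ∀ p : ℕ, p.Prime → B < p →
    ∀ v : HeightOneSpectrum (𝓞 K), (p : 𝓞 K) ∈ v.asIdeal → ¬ NonWieferich K (α : K) v) :
    α ∈ W K := by
  refine (fin_above B).subset fun v hv => ?_
  obtain ⟨p, hp, hpv⟩ := exists_below v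
  refine ⟨p, hp, ?_, hpv⟩
  by_contra hcon
  exact h p hp (by omega) v hpv hv

/-- **The norm criterion.** If infinitely many primes are not Wieferich primes to the base `b`,
then no element with norm `± b ^ a`, `a ≠ 0`, is in `W K`. -/
lemma not_mem_W_of_norm {b : ℕ} (hb : 2 ≤ b) (hinf : ∀ B : ℕ, ∃ p : ℕ, B < p ∧ p.Prime ∧
    ¬ p ^ 2 ∣ b ^ (p - 1) - 1) {α : Kˣ} {a : ℤ} (ha : a ≠ 0)
    (h : |Algebra.norm ℚ (α : K)| = (b : ℚ) ^ a) : α ∉ W K := by
  intro hW
  obtain ⟨B, hB⟩ := W_large hW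
  obtain ⟨C, hC⟩ := exists_place (ι := Unit) (fun _ => K) (fun _ => (α : K))
    (fun _ => α.ne_zero) (fun _ => 1) ha hb (by simpa using h)
  obtain ⟨p, hlt, hp, hnd⟩ := hinf (max B C)
  obtain ⟨-, v, hv, hn⟩ := hC p hp ((le_max_right _ _).trans_lt hlt) hnd
  exact hB p hp ((le_max_left _ _).trans_lt hlt) v hv hn

end Field

open Run7.h510.G.Bases in
lemma inf_of_not_Ev {b : ℕ} (hb : 1 ≤ b) (h : ¬ Ev (b : ℚ)) : ∀ B : ℕ, ∃ p : ℕ, B < p ∧ p.Prime ∧
    ¬ p ^ 2 ∣ b ^ (p - 1) - 1 := by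
  intro B
  unfold Ev at h
  push Not at h
  obtain ⟨p, hp, hlt, hn⟩ := h B
  refine ⟨p, hlt, hp, fun hd => hn ?_⟩
  rw [WQ_nat hp]
  have h3 : 1 ≤ b ^ (p - 1) := Nat.one_le_pow _ _ hb
  have : ((p ^ 2 : ℕ) : ℤ) ∣ ((b ^ (p - 1) - 1 : ℕ) : ℤ) := by exact_mod_cast hd
  rw [Nat.cast_sub h3] at this
  push_cast at this
  exact this

theorem inf_two : ∀ B : ℕ, ∃ p : ℕ, B < p ∧ p.Prime ∧ ¬ p ^ 2 ∣ 2 ^ (p - 1) - 1 :=
  inf_of_not_Ev (by norm_num) (by exact_mod_cast Run7.h510.G.Bases.not_Ev_two)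

theorem inf_three : ∀ B : ℕ, ∃ p : ℕ, B < p ∧ p.Prime ∧ ¬ p ^ 2 ∣ 3 ^ (p - 1) - 1 :=
  inf_of_not_Ev (by norm_num) (by exact_mod_cast Run7.h510.G.Bases.not_Ev_three)

theorem inf_432 : ∀ B : ℕ, ∃ p : ℕ, B < p ∧ p.Prime ∧ ¬ p ^ 2 ∣ 432 ^ (p - 1) - 1 :=
  inf_of_not_Ev (by norm_num) (by exact_mod_cast Run7.h510.G.Bases.not_Ev_432)

end Run7.h128.NW
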