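import Pool.Agent.Run7.h128.NW.Elem
import Pool.Agent.Run7.h128.NW.Grp

/-!
# Rich integers of a number field in boxes
-/

set_option autoImplicit false

namespace Run7.h128.NW

open NumberField IsDedekindDomain
open Run7.h283.NW (NonWieferich Below infinite_of ExactPrimitive)

section Field

variable {K : Type} [Field K] [NumberField K]

/-- infinitely many primes of `K` are not Wieferich primes for the base `x` -/
def Rich (K : Type) [Field K] [NumberField K] (x : K) : Prop :=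
  {v : HeightOneSpectrum (𝓞 K) | NonWieferich K x v}.Infinite

lemma rich_iff_not_mem {α : Kˣ} : Rich K (α : K) ↔ α ∉ W K := by
  rw [mem_W]
  rfl

lemma rich_or {g : Kˣ} (hg : g ∉ W K) {x : K} (hx : x ≠ 0) {k : ℕ} (hk : 0 < k) :
    Rich K x ∨ Rich K ((g : K) ^ k * x) := by
  by_contra hcon
  push Not at hcon
  obtain ⟨h1, h2⟩ := hcon
  have e1 : x = ((Units.mk0 x hx : Kˣ) : K) := rfl
  have e2 : (g : K) ^ k * x = ((g ^ k * Units.mk0 x hx : Kˣ) : K) := by
    rw [Units.val_mul, Units.val_pow_eq_pow_val]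
    rfl
  rw [e2, rich_iff_not_mem, not_not] at h2
  rw [e1, rich_iff_not_mem, not_not] at h1
  have h3 : g ^ k ∈ W K := by
    have := (W K).mul_mem h2 ((W K).inv_mem h1)
    rwa [mul_inv_cancel_right] at this
  exact hg (W_root hk h3)

lemma below_of_rich {x : K} (h : Rich K x) (P : ℕ) :
    ∃ p, P < p ∧ Below (ι := Unit) (fun _ => K) (fun _ => x) p := by
  obtain ⟨v, hv, hn⟩ := (h.sdiff (fin_above (K := K) P)).nonempty
  obtain ⟨p, hp, hpv⟩ := exists_below v
  refine ⟨p, ?_, hp, (), v, hpv, hv⟩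
  by_contra hle
  exact hn ⟨p, hp, by omega, hpv⟩

theorem infinite_exact {x : K} (h : Rich K x) :
    {n : ℕ | ∃ v : HeightOneSpectrum (𝓞 K), ExactPrimitive K x n v}.Infinite := by
  have h1 := infinite_of (ι := Unit) (fun _ => K) (fun _ => x) (below_of_rich h)
  refine h1.mono ?_
  rintro n ⟨-, v, hv⟩
  exact ⟨v, hv⟩

open scoped Classical in
/-- finite sets closed under division by `g` -/
theorem count_field {g : 𝓞 K} (hg : ¬ IsUnit g) (hg0 : (g : K) ≠ 0) (hgW : Units.mk0 (g : K) hg0 ∉ W K)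
    (G : Finset (𝓞 K)) (h0 : (0 : 𝓞 K) ∉ G) (hG : ∀ β : 𝓞 K, g * β ∈ G → β ∈ G) :
    (G.filter fun β : 𝓞 K => g ∣ β).card ≤ (G.filter fun β : 𝓞 K => Rich K (β : K)).card := by
  refine count_good hg (fun β : 𝓞 K => Rich K (β : K)) (fun β hβ k hk => ?_) G h0 hG
  have h1 := rich_or hgW (x := (β : K)) (by exact_mod_cast hβ) hk
  rcases h1 with h1 | h1
  · exact Or.inl h1
  · right
    have e : (((g ^ k * β : 𝓞 K)) : K) = ((Units.mk0 (g : K) hg0 : Kˣ) : K) ^ k * (β : K) := by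
      push_cast
      rfl
    rw [e]
    exact h1

lemma two_not_mem (h2 : (2 : K) ≠ 0) : Units.mk0 (2 : K) h2 ∉ W K := by
  refine not_mem_W_of_norm (b := 2) le_rfl inf_two (a := Module.finrank ℚ K) ?_ ?_
  · exact_mod_cast (Module.finrank_pos (R := ℚ) (M := K)).ne'
  · have e : ((Units.mk0 (2 : K) h2 : Kˣ) : K) = algebraMap ℚ K 2 := by
      rw [Units.val_mk0]
      simp
    rw [e, Algebra.norm_algebraMap, zpow_natCast, abs_of_pos (by positivity)]
    norm_num

/-- the integers with coordinates at most `T` which are rich -/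
def RichBox {ι : Type} (b : Module.Basis ι ℤ (𝓞 K)) (T : ℕ) : Set (𝓞 K) :=
  {β | (∀ i, |b.repr β i| ≤ T) ∧ Rich K (β : K)}

omit [NumberField K] in
lemma fin_box {ι : Type} [Finite ι] (b : Module.Basis ι ℤ (𝓞 K)) (T : ℕ) :
    {β : 𝓞 K | ∀ i, |b.repr β i| ≤ T}.Finite := by
  have h1 : {x : ι → ℤ | ∀ i, x i ∈ Set.Icc (-(T : ℤ)) T}.Finite := by
    have := Set.Finite.pi' (fun _ : ι => Set.finite_Icc (-(T : ℤ)) T)
    exact this
  refine Set.Finite.subset (h1.preimage (f := fun β : 𝓞 K => fun i => b.repr β i) ?_) ?_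
  · intro β _ γ _ h
    apply b.repr.injective
    ext i
    exact congrFun h i
  · intro β hβ i
    exact abs_le.1 (hβ i)

theorem box_count {ι : Type} [Fintype ι] (b : Module.Basis ι ℤ (𝓞 K)) (T : ℕ) :
    (2 * (T / 2) + 1) ^ Fintype.card ι - 1 ≤ (RichBox b T).ncard := by
  classical
  have hfin := fin_box b T
  set G : Finset (𝓞 K) := hfin.toFinset.erase 0 with hG
  have mem_G : ∀ β : 𝓞 K, β ∈ G ↔ β ≠ 0 ∧ ∀ i, |b.repr β i| ≤ T := by
    intro β
    rw [hG, Finset.mem_erase, Set.Finite.mem_toFinset]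
    rfl
  have h2 : (2 : K) ≠ 0 := two_ne_zero
  have h2' : (((2 : 𝓞 K)) : K) ≠ 0 := by
    have e : ((2 : 𝓞 K) : K) = 2 := by norm_cast
    rw [e]; exact h2
  have hu : ¬ IsUnit (2 : 𝓞 K) := by
    intro h
    obtain ⟨v, hv⟩ : ∃ v : HeightOneSpectrum (𝓞 K), ((2 : ℕ) : 𝓞 K) ∈ v.asIdeal := by
      have h3 : (Ideal.span {((2 : ℕ) : 𝓞 K)}) = ⊤ := by
        rw [Ideal.span_singleton_eq_top]
        exact_mod_cast h
      have h4 := Ideal.absNorm_span_natCast (S := 𝓞 K) 2
      rw [h3, Ideal.absNorm_top] at h4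
      have h5 : 0 < Module.finrank ℤ (𝓞 K) := Module.finrank_pos
      have h6 := Nat.one_lt_pow h5.ne' (show 1 < 2 by norm_num)
      omega
    apply v.isPrime.ne_top
    rw [Ideal.eq_top_iff_one]
    have h3 := Ideal.mul_mem_left v.asIdeal (↑(h.unit⁻¹) : 𝓞 K) hv
    have h4 : (↑(h.unit⁻¹) : 𝓞 K) * ((2 : ℕ) : 𝓞 K) = 1 := by
      push_cast
      exact h.val_inv_mul
    rwa [h4] at h3
  have hW : Units.mk0 (((2 : 𝓞 K)) : K) h2' ∉ W K := by
    have e : Units.mk0 (((2 : 𝓞 K)) : K) h2' = Units.mk0 (2 : K) h2 := by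
      apply Units.ext
      rw [Units.val_mk0, Units.val_mk0]
      norm_cast
    rw [e]
    exact two_not_mem h2
  have hrep : ∀ β : 𝓞 K, ∀ i, b.repr (2 * β) i = 2 * b.repr β i := by
    intro β i
    have e : (2 : 𝓞 K) * β = (2 : ℤ) • β := by rw [zsmul_eq_mul]; norm_cast
    rw [e, map_zsmul]
    simp
  have h1 := count_field hu h2' hW G (fun h => (mem_G 0).1 h |>.1 rfl) (fun β h => by
    rw [mem_G] at h ⊢
    refine ⟨right_ne_zero_of_mul h.1, fun i => ?_⟩
    have h3 := h.2 i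
    rw [hrep, abs_mul] at h3
    have h4 := abs_nonneg (b.repr β i)
    have h5 : |(2 : ℤ)| = 2 := by norm_num
    rw [h5] at h3
    linarith)
  have h3 : (G.filter fun β : 𝓞 K => Rich K (β : K)).card ≤ (RichBox b T).ncard := by
    rw [← Set.ncard_coe_finset]
    refine Set.ncard_le_ncard ?_ (hfin.subset fun β hβ => hβ.1)
    intro β hβ
    rw [Finset.mem_coe, Finset.mem_filter, mem_G] at hβ
    exact ⟨hβ.1.2, hβ.2⟩
  have h4 : (2 * (T / 2) + 1) ^ Fintype.card ι - 1 ≤ (G.filter fun β : 𝓞 K => (2 : 𝓞 K) ∣ β).card := by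
    set P : Finset (ι → ℤ) := Fintype.piFinset fun _ : ι => Finset.Icc (-((T / 2 : ℕ) : ℤ)) ((T / 2 : ℕ) : ℤ)
      with hP
    have hPc : P.card = (2 * (T / 2) + 1) ^ Fintype.card ι := by
      rw [hP, Fintype.card_piFinset, Finset.prod_const, Int.card_Icc, Finset.card_univ]
      congr 1
      omega
    have hinj : Function.Injective fun x : ι → ℤ => (2 : 𝓞 K) * ∑ i, x i • b i := by
      intro x y h
      have h5 := mul_left_cancel₀ (two_ne_zero) h
      have h6 := congrArg (fun z => (b.repr z : ι → ℤ)) h5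
      rwa [b.repr_sum_self, b.repr_sum_self] at h6
    have h5 : (P.image fun x : ι → ℤ => (2 : 𝓞 K) * ∑ i, x i • b i).erase 0 ⊆
        G.filter fun β : 𝓞 K => (2 : 𝓞 K) ∣ β := by
      intro β hβ
      rw [Finset.mem_erase, Finset.mem_image] at hβ
      obtain ⟨h0, x, hx, rfl⟩ := hβ
      rw [Finset.mem_filter, mem_G]
      refine ⟨⟨h0, fun i => ?_⟩, dvd_mul_right _ _⟩
      rw [hrep]
      have h6 : b.repr (∑ i, x i • b i) i = x i := congrFun (b.repr_sum_self x) i
      rw [h6]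
      have h7 := Fintype.mem_piFinset.1 hx i
      rw [Finset.mem_Icc] at h7
      rw [abs_le]
      constructor <;> omega
    have h6 := Finset.card_le_card h5
    have h7 := Finset.pred_card_le_card_erase
      (s := P.image fun x : ι → ℤ => (2 : 𝓞 K) * ∑ i, x i • b i) (a := 0)
    rw [Finset.card_image_of_injective _ hinj, hPc] at h7
    exact h7.trans h6
  exact h4.trans (h1.trans h3)

end Field

end Run7.h128.NW
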