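import Pool.Agent.Run7.h128.NW.Grp

/-!
# The densities of the non-Wieferich prime numbers, small primes removed
-/

set_option autoImplicit false

namespace Run7.h128.NW

/-- base two, odd primes -/
theorem dens_two (R : ℕ → Prop)
    (hR : ∀ p : ℕ, p.Prime → p ≠ 2 → ¬ p ^ 2 ∣ 2 ^ (p - 1) - 1 → R p) :
    ∃ x₀ : ℕ, ∀ x : ℕ, x₀ ≤ x →
      (x : ℝ) / (50 * Real.log x) ≤ ({p : ℕ | p ≤ x ∧ p.Prime ∧ R p}.ncard : ℝ) := by
  obtain ⟨x₀, h⟩ := Run7.h361.density'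
  refine ⟨x₀, fun x hx => ?_⟩
  have h1 := h x hx
  have hfin : {p : ℕ | p ≤ x ∧ p.Prime ∧ R p}.Finite :=
    (Set.finite_Iic x).subset (fun p hp => hp.1)
  have hsub : (((Run7.h361.nw x).erase 2 : Finset ℕ) : Set ℕ) ⊆
      {p : ℕ | p ≤ x ∧ p.Prime ∧ R p} := by
    intro p hp
    rw [Finset.mem_coe, Finset.mem_erase, Run7.h361.mem_nw] at hp
    obtain ⟨hp2, hpx, hpp, hW⟩ := hp
    exact ⟨hpx, hpp, hR p hpp hp2 hW⟩
  have h4 := Set.ncard_le_ncard hsub hfin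
  rw [Set.ncard_coe_finset] at h4
  have h5 := Finset.pred_card_le_card_erase (s := Run7.h361.nw x) (a := 2)
  have h6 : ((Run7.h361.nw x).card : ℝ) ≤
      ({p : ℕ | p ≤ x ∧ p.Prime ∧ R p}.ncard : ℝ) + 1 := by
    exact_mod_cast (by omega)
  linarith

/-- base three, primes greater than three -/
theorem dens_three (R : ℕ → Prop)
    (hR : ∀ p : ℕ, p.Prime → p ≠ 2 → p ≠ 3 → ¬ p ^ 2 ∣ 3 ^ (p - 1) - 1 → R p) :
    ∃ x₀ : ℕ, ∀ x : ℕ, x₀ ≤ x →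
      (x : ℝ) / (111 * Real.log x) ≤ ({p : ℕ | p ≤ x ∧ p.Prime ∧ R p}.ncard : ℝ) := by
  obtain ⟨x₀, h⟩ := Run7.h510.B3.density_all
  obtain ⟨x₁, h1⟩ := Run7.h283.NW.big_div_log (2 * (110 * 111))
  refine ⟨max x₀ (max x₁ 2), fun x hx => ?_⟩
  have hx0 : x₀ ≤ x := (le_max_left _ _).trans hx
  have hx1 : x₁ ≤ x := (le_max_left _ _).trans ((le_max_right _ _).trans hx)
  have hx2 : 2 ≤ x := (le_max_right _ _).trans ((le_max_right _ _).trans hx)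
  have h2 := h x hx0 0 1 one_ne_zero (by simpa using (Real.exp_pos _).le)
      (by simpa using Real.one_le_exp (by positivity))
  have h3 := h1 x hx1
  have hfin : {p : ℕ | p ≤ x ∧ p.Prime ∧ R p}.Finite :=
    (Set.finite_Iic x).subset (fun p hp => hp.1)
  have hsub : {p : ℕ | p ≤ x ∧ p.Prime ∧ ¬ ((p : ℤ)) ^ 2 ∣ 1 * (3 ^ (p - 1) - 1) - 0 * p} ⊆
      {p : ℕ | p ≤ x ∧ p.Prime ∧ R p} ∪ {2, 3} := by
    intro p hp
    obtain ⟨hpx, hpp, hW⟩ := hp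
    by_cases h23 : p = 2 ∨ p = 3
    · right
      exact h23
    · left
      push Not at h23
      refine ⟨hpx, hpp, hR p hpp h23.1 h23.2 fun hd => hW ?_⟩
      have h4 : ((p ^ 2 : ℕ) : ℤ) ∣ ((3 ^ (p - 1) - 1 : ℕ) : ℤ) := by exact_mod_cast hd
      rw [Nat.cast_sub (Nat.one_le_pow _ _ (by norm_num))] at h4
      push_cast at h4
      simpa using h4
  have h4 : {p : ℕ | p ≤ x ∧ p.Prime ∧
      ¬ ((p : ℤ)) ^ 2 ∣ 1 * (3 ^ (p - 1) - 1) - 0 * p}.ncard ≤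
      {p : ℕ | p ≤ x ∧ p.Prime ∧ R p}.ncard + 2 := by
    refine (Set.ncard_le_ncard hsub (hfin.union (Set.toFinite _))).trans ?_
    refine (Set.ncard_union_le _ _).trans ?_
    have h5 : ({2, 3} : Set ℕ).ncard ≤ 2 := by
      rw [Set.ncard_pair (by norm_num)]
    omega
  have h5 : ({p : ℕ | p ≤ x ∧ p.Prime ∧
      ¬ ((p : ℤ)) ^ 2 ∣ 1 * (3 ^ (p - 1) - 1) - 0 * p}.ncard : ℝ) ≤
      ({p : ℕ | p ≤ x ∧ p.Prime ∧ R p}.ncard : ℝ) + 2 := by exact_mod_cast h4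
  have hlog : 0 < Real.log x := Real.log_pos (by exact_mod_cast hx2)
  have e1 : (x : ℝ) / (110 * Real.log x) = (x / Real.log x) / 110 := by
    field_simp
  have e2 : (x : ℝ) / (111 * Real.log x) = (x / Real.log x) / 111 := by
    field_simp
  rw [e1] at h2
  rw [e2]
  linarith

end Run7.h128.NW
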