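import Mathlib

/-!
# Elementary lemmas on `α ^ E - 1` modulo the square of a prime element; a counting lemma
-/

set_option autoImplicit false

namespace Run7.h128.NW

section Ring

variable {R : Type*} [CommRing R]

lemma mulW {q α β : R} {E : ℕ} (h1 : q ∣ α ^ E - 1) (h2 : q ∣ β ^ E - 1) :
    q ∣ (α * β) ^ E - 1 := by
  have e : (α * β) ^ E - 1 = β ^ E * (α ^ E - 1) + (β ^ E - 1) := by rw [mul_pow]; ring
  rw [e]
  exact dvd_add (h1.mul_left _) h2

lemma divW {q α β : R} {E : ℕ} (h : q ∣ (α * β) ^ E - 1) (h2 : q ∣ β ^ E - 1) :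
    q ∣ α ^ E - 1 := by
  have e : (α * β) ^ E - 1 = α ^ E * (β ^ E - 1) + (α ^ E - 1) := by rw [mul_pow]; ring
  rw [e] at h
  exact (dvd_add_right (h2.mul_left _)).1 h

lemma powW {q α : R} {E : ℕ} (h : q ∣ α ^ E - 1) (k : ℕ) : q ∣ (α ^ k) ^ E - 1 := by
  rw [← pow_mul, mul_comm k, pow_mul]
  exact h.trans (sub_one_dvd_pow_sub_one _ k)
where
  sub_one_dvd_pow_sub_one (a : R) (k : ℕ) : a - 1 ∣ a ^ k - 1 := by
    simpa using sub_dvd_pow_sub_pow a 1 k

lemma dvd_pow_sub_one {q a : R} (h : q ∣ a - 1) (k : ℕ) : q ∣ a ^ k - 1 := by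
  refine h.trans ?_
  simpa using sub_dvd_pow_sub_pow a 1 k

lemma rootW [IsDomain R] {π a : R} (hπ : Prime π) (h : π ∣ a - 1) {k : ℕ} (hk : ¬ π ∣ (k : R))
    (h2 : π ^ 2 ∣ a ^ k - 1) : π ^ 2 ∣ a - 1 := by
  have e : a ^ k - 1 = (a - 1) * ∑ i ∈ Finset.range k, a ^ i := (mul_geom_sum a k).symm
  rw [e] at h2
  refine hπ.pow_dvd_of_dvd_mul_right 2 (fun h3 => hk ?_) h2
  have h4 : π ∣ ∑ i ∈ Finset.range k, (a ^ i - 1) := Finset.dvd_sum fun i _ => dvd_pow_sub_one h i
  rw [Finset.sum_sub_distrib] at h4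
  have h5 := (dvd_sub_right h3).1 h4
  simpa using h5

end Ring

/-- the powers of a rational base -/
lemma int_root {p b : ℕ} (hp : p.Prime) (hb : ¬ p ∣ b) {f K : ℕ} (hf : 1 ≤ f) (hK : ¬ p ∣ K)
    (h : (p : ℤ) ^ 2 ∣ ((b : ℤ) ^ K) ^ (p ^ f - 1) - 1) : p ^ 2 ∣ b ^ (p - 1) - 1 := by
  have hpz : Prime (p : ℤ) := Nat.prime_iff_prime_int.1 hp
  obtain ⟨k, hk, hpk⟩ : ∃ k : ℕ, p ^ f - 1 = (p - 1) * k ∧ ¬ p ∣ k := by
    refine ⟨∑ i ∈ Finset.range f, p ^ i, ?_, ?_⟩
    · have h := Nat.geomSum_eq hp.two_le f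
      rw [h]
      rw [Nat.mul_div_cancel' (Nat.sub_one_dvd_pow_sub_one p f)]
    · obtain ⟨g, rfl⟩ : ∃ g, f = g + 1 := ⟨f - 1, by omega⟩
      rw [Finset.sum_range_succ', pow_zero]
      intro h
      have h1 : p ∣ ∑ i ∈ Finset.range g, p ^ (i + 1) :=
        Finset.dvd_sum fun i _ => dvd_pow_self p (by omega)
      exact hp.one_lt.ne' (Nat.dvd_one.1 ((Nat.dvd_add_right h1).1 h))
  have hdvd : (p : ℤ) ∣ (b : ℤ) ^ (p - 1) - 1 := by
    have := Fact.mk hp
    have h1 : ((b : ZMod p)) ≠ 0 := by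
      rw [Ne, ZMod.natCast_eq_zero_iff]
      exact hb
    have h2 := ZMod.pow_card_sub_one_eq_one h1
    rw [← ZMod.intCast_zmod_eq_zero_iff_dvd]
    push_cast
    rw [h2, sub_self]
  have e : ((b : ℤ) ^ K) ^ (p ^ f - 1) = ((b : ℤ) ^ (p - 1)) ^ (K * k) := by
    rw [hk, ← pow_mul, ← pow_mul]
    congr 1
    ring
  rw [e] at h
  have h3 := rootW hpz hdvd (k := K * k) (by
    rw [Int.natCast_dvd_natCast]
    exact fun h4 => (hp.dvd_mul.1 h4).elim hK hpk) h
  have hb0 : 1 ≤ b := by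
    rcases Nat.eq_zero_or_pos b with h | h
    · rw [h] at hb; exact absurd (dvd_zero p) hb
    · exact h
  have h5 : 1 ≤ b ^ (p - 1) := Nat.one_le_pow _ _ hb0
  have h6 : ((b ^ (p - 1) - 1 : ℕ) : ℤ) = (b : ℤ) ^ (p - 1) - 1 := by
    rw [Nat.cast_sub h5]
    push_cast
    ring
  rw [← h6] at h3
  exact_mod_cast h3

/-- **The counting lemma.** If of `α` and `g ^ k α` at least one is good, then in every finite set of
nonzero elements which is closed under division by `g` there are at least as many good elements as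
multiples of `g`. -/
theorem count_good {R : Type*} [CommRing R] [IsDomain R] [WfDvdMonoid R] [DecidableEq R] {g : R}
    (hg : ¬ IsUnit g) (P : R → Prop) [DecidablePred P] [DecidablePred fun α : R => g ∣ α]
    (hP : ∀ α : R, α ≠ 0 → ∀ k : ℕ, 0 < k → P α ∨ P (g ^ k * α)) (G : Finset R)
    (h0 : (0 : R) ∉ G) (hG : ∀ β : R, g * β ∈ G → β ∈ G) :
    (G.filter fun α => g ∣ α).card ≤ (G.filter P).card := by
  classical
  have hpow : ∀ (k : ℕ) (β : R), g ^ k * β ∈ G → β ∈ G := by
    intro k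
    induction k with
    | zero => intro β h; simpa using h
    | succ k ih =>
      intro β h
      apply ih
      apply hG
      rw [pow_succ] at h
      convert h using 1
      ring
  have hex : ∀ α : R, ∃ (k : ℕ) (c : R), α ≠ 0 → α = g ^ k * c ∧ ¬ g ∣ c := by
    intro α
    by_cases hα : α = 0
    · exact ⟨0, 0, fun h => absurd hα h⟩
    · have h1 : FiniteMultiplicity g α := FiniteMultiplicity.of_not_isUnit hg hα
      obtain ⟨c, hc, hd⟩ := h1.exists_eq_pow_mul_and_not_dvd
      exact ⟨_, c, fun _ => ⟨hc, hd⟩⟩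
  choose e c hec using hex
  have h1 : (G.filter fun α => ¬ P α).card ≤ (G.filter fun α => ¬ g ∣ α).card := by
    refine Finset.card_le_card_of_injOn c ?_ ?_
    · intro α hα
      rw [Finset.mem_coe, Finset.mem_filter] at hα ⊢
      have hα0 : α ≠ 0 := fun h => h0 (h ▸ hα.1)
      obtain ⟨h2, h3⟩ := hec α hα0
      refine ⟨hpow (e α) _ ?_, h3⟩
      rw [← h2]
      exact hα.1
    · intro α hα β hβ hc
      rw [Finset.mem_coe, Finset.mem_filter] at hα hβ
      have hα0 : α ≠ 0 := fun h => h0 (h ▸ hα.1)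
      have hβ0 : β ≠ 0 := fun h => h0 (h ▸ hβ.1)
      obtain ⟨h2, -⟩ := hec α hα0
      obtain ⟨h4, -⟩ := hec β hβ0
      have hc' : c α = c β := hc
      rw [← hc'] at h4
      rcases lt_trichotomy (e α) (e β) with h | h | h
      · exfalso
        have h5 : β = g ^ (e β - e α) * α := by
          have h7 : e β = (e β - e α) + e α := by omega
          calc β = g ^ e β * c α := h4
            _ = g ^ ((e β - e α) + e α) * c α := by rw [← h7]
            _ = g ^ (e β - e α) * (g ^ e α * c α) := by rw [pow_add, mul_assoc]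
            _ = g ^ (e β - e α) * α := by rw [← h2]
        rcases hP α hα0 (e β - e α) (by omega) with h6 | h6
        · exact hα.2 h6
        · rw [← h5] at h6
          exact hβ.2 h6
      · rw [h2, h4, h]
      · exfalso
        have h5 : α = g ^ (e α - e β) * β := by
          have h7 : e α = (e α - e β) + e β := by omega
          calc α = g ^ e α * c α := h2
            _ = g ^ ((e α - e β) + e β) * c α := by rw [← h7]
            _ = g ^ (e α - e β) * (g ^ e β * c α) := by rw [pow_add, mul_assoc]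
            _ = g ^ (e α - e β) * β := by rw [← h4]
        rcases hP β hβ0 (e α - e β) (by omega) with h6 | h6
        · exact hβ.2 h6
        · rw [← h5] at h6
          exact hα.2 h6
  have h2 := Finset.card_filter_add_card_filter_not (s := G) P
  have h3 := Finset.card_filter_add_card_filter_not (s := G) (fun α => g ∣ α)
  omega

end Run7.h128.NW
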