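import Pool.Agent.Run7.h128.NW.Elem
import Pool.Agent.Run7.h128.NW.Grp

/-!
# Wieferich primes of the Gaussian integers
-/

set_option autoImplicit false

namespace Run7.h128.NW.Gau

/-- the number `|π|²` -/
abbrev nrm (q : GaussianInt) : ℕ := q.norm.natAbs

/-- `q` divides `α ^ (N q - 1) - 1` exactly once -/
def NonWieferich (α q : GaussianInt) : Prop :=
  q ∣ α ^ (nrm q - 1) - 1 ∧ ¬ q ^ 2 ∣ α ^ (nrm q - 1) - 1

/-- infinitely many Gaussian primes are not Wieferich primes for the base `α` -/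
def Rich (α : GaussianInt) : Prop :=
  ∀ B : ℕ, ∃ q : GaussianInt, Prime q ∧ B < nrm q ∧ NonWieferich α q

lemma nrm_mul (a b : GaussianInt) : nrm (a * b) = nrm a * nrm b := by
  unfold nrm
  rw [Zsqrtd.norm_mul, Int.natAbs_mul]

lemma nrm_nat (n : ℕ) : nrm (n : GaussianInt) = n * n := by
  unfold nrm
  rw [Zsqrtd.norm_natCast, Int.natAbs_mul, Int.natAbs_natCast]

lemma nrm_pos {a : GaussianInt} (h : a ≠ 0) : 0 < nrm a := by
  unfold nrm
  have := GaussianInt.norm_pos.2 h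
  omega

lemma nrm_le_of_dvd {a b : GaussianInt} (h : a ∣ b) (hb : b ≠ 0) : nrm a ≤ nrm b := by
  obtain ⟨c, rfl⟩ := h
  rw [nrm_mul]
  have hc : c ≠ 0 := right_ne_zero_of_mul hb
  exact Nat.le_mul_of_pos_right _ (nrm_pos hc)

lemma two_le_nrm {q : GaussianInt} (hq : Prime q) : 2 ≤ nrm q := by
  have h1 := nrm_pos hq.ne_zero
  have h2 : nrm q ≠ 1 := fun h => hq.not_isUnit (Zsqrtd.norm_eq_one_iff.1 h)
  omega

lemma nrm_cases {p : ℕ} (hp : p.Prime) {q : GaussianInt} (hq : Prime q) (h : q ∣ (p : GaussianInt)) :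
    nrm q = p ∨ nrm q = p ^ 2 := by
  have h1 : nrm q ∣ p ^ 2 := by
    obtain ⟨c, hc⟩ := h
    refine ⟨nrm c, ?_⟩
    rw [← nrm_mul, ← hc, nrm_nat, sq]
  obtain ⟨k, hk, h2⟩ := (Nat.dvd_prime_pow hp).1 h1
  interval_cases k
  · exfalso
    have := two_le_nrm hq
    rw [pow_zero] at h2
    omega
  · left; simpa using h2
  · right; exact h2

lemma le_nrm {p : ℕ} (hp : p.Prime) {q : GaussianInt} (hq : Prime q) (h : q ∣ (p : GaussianInt)) :
    p ≤ nrm q := by
  rcases nrm_cases hp hq h with h1 | h1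
  · exact h1.ge
  · rw [h1, sq]
    exact Nat.le_mul_of_pos_left p hp.pos

lemma not_dvd_int {p : ℕ} (hp : p.Prime) {q : GaussianInt} (hq : Prime q)
    (h : q ∣ (p : GaussianInt)) {n : ℤ} (hn : ¬ (p : ℤ) ∣ n) : ¬ q ∣ (n : GaussianInt) := by
  intro h2
  have h3 : IsCoprime (p : ℤ) n := (Nat.prime_iff_prime_int.1 hp).coprime_iff_not_dvd.2 hn
  obtain ⟨a, b, hab⟩ := h3
  apply hq.not_isUnit
  apply isUnit_of_dvd_one
  have h4 : (1 : GaussianInt) = (a : GaussianInt) * (p : GaussianInt) + b * n := by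
    have := congrArg (Int.cast : ℤ → GaussianInt) hab
    push_cast at this
    exact this.symm
  rw [h4]
  exact dvd_add (h.mul_left _) (h2.mul_left _)

lemma exists_below {q : GaussianInt} (hq : Prime q) : ∃ p : ℕ, p.Prime ∧ q ∣ (p : GaussianInt) := by
  have h1 : q ∣ ((nrm q : ℕ) : GaussianInt) := by
    refine ⟨star q, ?_⟩
    rw [← Zsqrtd.norm_eq_mul_conj]
    unfold nrm
    have := GaussianInt.norm_nonneg q
    have h2 : ((q.norm.natAbs : ℕ) : ℤ) = q.norm := Int.natAbs_of_nonneg this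
    have h3 : ((q.norm.natAbs : ℕ) : GaussianInt) = (((q.norm.natAbs : ℕ) : ℤ) : GaussianInt) :=
      (Int.cast_natCast _).symm
    rw [h3, h2]
  have hn0 : nrm q ≠ 0 := (nrm_pos hq.ne_zero).ne'
  generalize nrm q = n at h1 hn0
  induction n using Nat.recOnPrimePow with
  | zero => exact absurd rfl hn0
  | one =>
    exfalso
    apply hq.not_isUnit
    apply isUnit_of_dvd_one
    simpa using h1
  | prime_pow_mul a p n hp _ hn ih =>
    rw [Nat.cast_mul] at h1
    rcases hq.dvd_or_dvd h1 with h | h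
    · refine ⟨p, hp, ?_⟩
      rw [Nat.cast_pow] at h
      exact hq.dvd_of_dvd_pow h
    · exact ih h (right_ne_zero_of_mul hn0)

/-- rational integers divisible by the square of a Gaussian prime -/
lemma sq_dvd {p : ℕ} (hp : p.Prime) (hp2 : p ≠ 2) {q : GaussianInt} (hq : Prime q)
    (h : q ∣ (p : GaussianInt)) {n : ℤ} (hn : q ^ 2 ∣ (n : GaussianInt)) : (p : ℤ) ^ 2 ∣ n := by
  have hpz : Prime (p : ℤ) := Nat.prime_iff_prime_int.1 hp
  by_cases h1 : (p : ℤ) ∣ n
  · obtain ⟨m, rfl⟩ := h1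
    by_cases h2 : (p : ℤ) ∣ m
    · obtain ⟨l, rfl⟩ := h2
      exact ⟨l, by ring⟩
    · exfalso
      have h3 := not_dvd_int hp hq h h2
      push_cast at hn
      have h4 : q ^ 2 ∣ (p : GaussianInt) := hq.pow_dvd_of_dvd_mul_right 2 h3 hn
      obtain ⟨u, hu⟩ := h4
      have h5 : nrm q * nrm q * nrm u = p * p := by
        calc nrm q * nrm q * nrm u = nrm ((p : ℕ) : GaussianInt) := by
              rw [hu, sq, nrm_mul, nrm_mul]
          _ = p * p := nrm_nat p
      have hp1 := hp.two_le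
      rcases nrm_cases hp hq h with h6 | h6
      · rw [h6] at h5
        have h7 : nrm u = 1 := by
          have h8 : 0 < p * p := by positivity
          have h9 : p * p * nrm u = p * p * 1 := by rw [h5, mul_one]
          exact Nat.eq_of_mul_eq_mul_left h8 h9
        obtain ⟨w, hw⟩ := (Zsqrtd.norm_eq_one_iff.1 h7).exists_right_inv
        have h8 : ((p : ℤ) : GaussianInt) ∣ q ^ 2 := by
          refine ⟨w, ?_⟩
          calc q ^ 2 = q ^ 2 * (u * w) := by rw [hw, mul_one]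
            _ = ((p : ℤ) : GaussianInt) * w := by rw [← mul_assoc, ← hu]; push_cast; rfl
        rw [Zsqrtd.intCast_dvd] at h8
        obtain ⟨h9, h10⟩ := h8
        have e1 : (q ^ 2).re = q.re * q.re - q.im * q.im := by
          rw [sq, Zsqrtd.re_mul]; ring
        have e2 : (q ^ 2).im = 2 * (q.re * q.im) := by
          rw [sq, Zsqrtd.im_mul]; ring
        rw [e1] at h9
        rw [e2] at h10
        have h11 : q.re * q.re + q.im * q.im = p := by
          have h12 : q.norm = q.re * q.re + q.im * q.im := by rw [Zsqrtd.norm_def]; ring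
          have h13 : q.norm = ((q.norm.natAbs : ℕ) : ℤ) :=
            (Int.natAbs_of_nonneg (GaussianInt.norm_nonneg q)).symm
          rw [← h12, h13]
          exact_mod_cast h6
        have hp2' : ¬ (p : ℤ) ∣ 2 := by
          intro h12
          have h13 : p ∣ 2 := by exact_mod_cast h12
          exact hp2 ((Nat.prime_dvd_prime_iff_eq hp Nat.prime_two).1 h13)
        have h12 : (p : ℤ) ∣ 2 * (q.re * q.re) := by
          have h13 : (p : ℤ) ∣ q.re * q.re + q.im * q.im := by rw [h11]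
          have h14 := dvd_add h9 h13
          have e3 : q.re * q.re - q.im * q.im + (q.re * q.re + q.im * q.im) = 2 * (q.re * q.re) := by
            ring
          rwa [e3] at h14
        have h13 : (p : ℤ) ∣ q.re := by
          rcases hpz.dvd_or_dvd h12 with h14 | h14
          · exact absurd h14 hp2'
          · rcases hpz.dvd_or_dvd h14 with h15 | h15 <;> exact h15
        have h14 : (p : ℤ) ∣ q.im := by
          have h15 : (p : ℤ) ∣ q.re * q.re + q.im * q.im := by rw [h11]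
          have h16 := (dvd_add_right (h13.mul_right q.re)).1 h15
          rcases hpz.dvd_or_dvd h16 with h17 | h17 <;> exact h17
        obtain ⟨a, ha⟩ := h13
        obtain ⟨b, hb⟩ := h14
        rw [ha, hb] at h11
        have h15 : (p : ℤ) * (p * (a * a + b * b)) = p * 1 := by
          rw [mul_one]
          linear_combination h11
        have h16 := mul_left_cancel₀ hpz.ne_zero h15
        have h17 : (p : ℤ) ∣ 1 := ⟨_, h16.symm⟩
        exact hpz.not_isUnit (isUnit_of_dvd_one h17)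
      · rw [h6] at h5
        have h7 : 0 < nrm u := by
          rcases Nat.eq_zero_or_pos (nrm u) with h8 | h8
          · rw [h8, mul_zero] at h5
            have : 0 < p * p := by positivity
            omega
          · exact h8
        have h8 : p * p < p ^ 2 * p ^ 2 := by
          have : 1 < p ^ 2 := by nlinarith
          nlinarith
        nlinarith
  · exact absurd ((dvd_pow_self q two_ne_zero).trans hn) (not_dvd_int hp hq h h1)

/-! ### Fermat's little theorem -/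

lemma int_frob {p : ℕ} (hp : p.Prime) (x : ℤ) : (p : ℤ) ∣ x ^ p - x := by
  have := Fact.mk hp
  rw [← ZMod.intCast_zmod_eq_zero_iff_dvd]
  push_cast
  rw [ZMod.pow_card, sub_self]

lemma dvd_of_parts {p : ℕ} (hp : p.Prime) (α : GaussianInt) (ε : ℤ)
    (hI : (⟨0, 1⟩ : GaussianInt) ^ p = (ε : GaussianInt) * ⟨0, 1⟩) :
    (p : GaussianInt) ∣ α ^ p - ⟨α.re, ε * α.im⟩ := by
  have e1 : α = (α.re : GaussianInt) + (α.im : GaussianInt) * ⟨0, 1⟩ := by
    apply Zsqrtd.ext <;> simp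
  obtain ⟨r, hr⟩ := exists_add_pow_prime_eq hp (α.re : GaussianInt)
    ((α.im : GaussianInt) * ⟨0, 1⟩)
  rw [← e1] at hr
  obtain ⟨s, hs⟩ := int_frob hp α.re
  obtain ⟨t, ht⟩ := int_frob hp α.im
  have hs' : (α.re : GaussianInt) ^ p = (α.re : GaussianInt) + (p : GaussianInt) * (s : GaussianInt) := by
    have := congrArg (Int.cast : ℤ → GaussianInt) hs
    push_cast at this
    linear_combination this
  have ht' : (α.im : GaussianInt) ^ p = (α.im : GaussianInt) + (p : GaussianInt) * (t : GaussianInt) := by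
    have := congrArg (Int.cast : ℤ → GaussianInt) ht
    push_cast at this
    linear_combination this
  have e2 : (⟨α.re, ε * α.im⟩ : GaussianInt) =
      (α.re : GaussianInt) + (ε : GaussianInt) * (α.im : GaussianInt) * ⟨0, 1⟩ := by
    apply Zsqrtd.ext <;> simp
  rw [e2, hr, mul_pow, hs', ht', hI]
  exact ⟨(s : GaussianInt) + (t : GaussianInt) * ((ε : GaussianInt) * ⟨0, 1⟩) +
    (α.re : GaussianInt) * ((α.im : GaussianInt) * ⟨0, 1⟩) * r, by ring⟩

lemma I_four : (⟨0, 1⟩ : GaussianInt) ^ 4 = 1 := by decide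

lemma frob_one {p : ℕ} (hp : p.Prime) (h : p % 4 = 1) (α : GaussianInt) :
    (p : GaussianInt) ∣ α ^ p - α := by
  have h1 := dvd_of_parts hp α 1 (by
    obtain ⟨k, hk⟩ : ∃ k, p = 4 * k + 1 := ⟨p / 4, by omega⟩
    rw [hk, pow_succ, pow_mul, I_four, one_pow, Int.cast_one])
  have e : (⟨α.re, 1 * α.im⟩ : GaussianInt) = α := by
    apply Zsqrtd.ext <;> simp
  rwa [e] at h1

lemma frob_three {p : ℕ} (hp : p.Prime) (h : p % 4 = 3) (α : GaussianInt) :
    (p : GaussianInt) ∣ α ^ p - star α := by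
  have h1 := dvd_of_parts hp α (-1) (by
    obtain ⟨k, hk⟩ : ∃ k, p = 4 * k + 3 := ⟨p / 4, by omega⟩
    rw [hk, pow_add, pow_mul, I_four, one_pow, one_mul]
    decide)
  have e : (⟨α.re, -1 * α.im⟩ : GaussianInt) = star α := by
    apply Zsqrtd.ext <;> simp
  rwa [e] at h1

lemma mod_four_of_norm {p : ℕ} (hp : p.Prime) (hp2 : p ≠ 2) {q : GaussianInt} (h : nrm q = p) :
    p % 4 = 1 := by
  have h13 : q.norm = ((q.norm.natAbs : ℕ) : ℤ) :=
    (Int.natAbs_of_nonneg (GaussianInt.norm_nonneg q)).symm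
  have h12 : q.norm = q.re * q.re + q.im * q.im := by rw [Zsqrtd.norm_def]; ring
  have h11 : q.re * q.re + q.im * q.im = p := by
    rw [← h12, h13]
    exact_mod_cast h
  have hodd : p % 2 = 1 := Nat.odd_iff.1 (hp.odd_of_ne_two hp2)
  have h14 : (q.re * q.re + q.im * q.im) % 4 = (p : ℤ) % 4 := by rw [h11]
  have h15 : (p : ℤ) % 4 = 1 ∨ (p : ℤ) % 4 = 3 := by omega
  rcases h15 with h15 | h15
  · omega
  · exfalso
    rw [h15, Int.add_emod, Int.mul_emod q.re, Int.mul_emod q.im] at h14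
    have ha : q.re % 4 = 0 ∨ q.re % 4 = 1 ∨ q.re % 4 = 2 ∨ q.re % 4 = 3 := by omega
    have hb : q.im % 4 = 0 ∨ q.im % 4 = 1 ∨ q.im % 4 = 2 ∨ q.im % 4 = 3 := by omega
    rcases ha with ha | ha | ha | ha <;> rcases hb with hb | hb | hb | hb <;>
      rw [ha, hb] at h14 <;> norm_num at h14

lemma fermat {p : ℕ} (hp : p.Prime) (hp2 : p ≠ 2) {q : GaussianInt} (hq : Prime q)
    (h : q ∣ (p : GaussianInt)) {α : GaussianInt} (hα : ¬ q ∣ α) : q ∣ α ^ (nrm q - 1) - 1 := by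
  have key : q ∣ α ^ nrm q - α := by
    rcases nrm_cases hp hq h with h1 | h1
    · have h2 := mod_four_of_norm hp hp2 h1
      rw [h1]
      exact h.trans (frob_one hp h2 α)
    · rw [h1]
      refine h.trans ?_
      have hodd : p % 2 = 1 := Nat.odd_iff.1 (hp.odd_of_ne_two hp2)
      rcases (show p % 4 = 1 ∨ p % 4 = 3 by omega) with h2 | h2
      · have h3 := frob_one hp h2 α
        have h4 : (p : GaussianInt) ∣ (α ^ p) ^ p - α ^ p := h3.trans (sub_dvd_pow_sub_pow _ _ p)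
        have e : α ^ p ^ 2 - α = ((α ^ p) ^ p - α ^ p) + (α ^ p - α) := by
          rw [sq, pow_mul]; ring
        rw [e]
        exact dvd_add h4 h3
      · have h3 := frob_three hp h2 α
        have h4 : (p : GaussianInt) ∣ (α ^ p) ^ p - (star α) ^ p := h3.trans (sub_dvd_pow_sub_pow _ _ p)
        have h5 := frob_three hp h2 (star α)
        rw [star_star] at h5
        have e : α ^ p ^ 2 - α = ((α ^ p) ^ p - (star α) ^ p) + ((star α) ^ p - α) := by
          rw [sq, pow_mul]; ring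
        rw [e]
        exact dvd_add h4 h5
  have h1 := two_le_nrm hq
  have e : α ^ nrm q - α = α * (α ^ (nrm q - 1) - 1) := by
    have : nrm q = (nrm q - 1) + 1 := by omega
    nth_rewrite 1 [this]
    rw [pow_succ]
    ring
  rw [e] at key
  exact (hq.dvd_or_dvd key).resolve_left hα

/-! ### Bases -/

lemma base_not {p b : ℕ} (hp : p.Prime) (hp2 : p ≠ 2) (hb : ¬ p ∣ b)
    (hW : ¬ p ^ 2 ∣ b ^ (p - 1) - 1) {q : GaussianInt} (hq : Prime q) (h : q ∣ (p : GaussianInt))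
    {β : GaussianInt} {n m : ℕ} (hβ : β ^ n = ((b : ℤ) : GaussianInt) ^ m) (hm : ¬ p ∣ m) {d : ℕ}
    (hd : ¬ p ∣ d) : ¬ q ^ 2 ∣ (β ^ d) ^ (nrm q - 1) - 1 := by
  intro h2
  have h3 := powW h2 n
  have e1 : (β ^ d) ^ n = ((b : ℤ) : GaussianInt) ^ (m * d) := by
    rw [← pow_mul, mul_comm d n, pow_mul, hβ, ← pow_mul]
  rw [e1] at h3
  have e2 : (((b : ℤ) : GaussianInt) ^ (m * d)) ^ (nrm q - 1) - 1 =
      ((((b : ℤ) ^ (m * d)) ^ (nrm q - 1) - 1 : ℤ) : GaussianInt) := by push_cast; ring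
  rw [e2] at h3
  have h4 := sq_dvd hp hp2 hq h h3
  have hmd : ¬ p ∣ m * d := fun h5 => (hp.dvd_mul.1 h5).elim hm hd
  rcases nrm_cases hp hq h with h5 | h5
  · rw [h5] at h4
    exact hW (int_root hp hb (f := 1) le_rfl hmd (by rw [pow_one]; exact h4))
  · rw [h5] at h4
    exact hW (int_root hp hb (f := 2) (by norm_num) hmd h4)

lemma chain {p b : ℕ} (hp : p.Prime) (hp2 : p ≠ 2) (hb : ¬ p ∣ b)
    (hW : ¬ p ^ 2 ∣ b ^ (p - 1) - 1) {q : GaussianInt} (hq : Prime q) (h : q ∣ (p : GaussianInt))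
    {β : GaussianInt} {n m : ℕ} (hn : 0 < n) (hβ : β ^ n = ((b : ℤ) : GaussianInt) ^ m)
    (hm : ¬ p ∣ m) {α : GaussianInt} (hα : ¬ q ∣ α) {i j : ℕ} (hij : i < j) (hd : ¬ p ∣ j - i) :
    NonWieferich (β ^ i * α) q ∨ NonWieferich (β ^ j * α) q := by
  have hqb : ¬ q ∣ β := by
    intro h1
    have h2 : q ∣ ((b : ℤ) : GaussianInt) ^ m := by
      rw [← hβ]
      exact dvd_pow h1 (by omega)
    exact not_dvd_int hp hq h (fun h3 => hb (by exact_mod_cast h3)) (hq.dvd_of_dvd_pow h2)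
  have hu : ∀ k : ℕ, ¬ q ∣ β ^ k * α := fun k h1 =>
    (hq.dvd_or_dvd h1).elim (fun h2 => hqb (hq.dvd_of_dvd_pow h2)) hα
  by_contra hcon
  push Not at hcon
  obtain ⟨h1, h2⟩ := hcon
  have h3 : q ^ 2 ∣ (β ^ i * α) ^ (nrm q - 1) - 1 := by
    by_contra h4
    exact h1 ⟨fermat hp hp2 hq h (hu i), h4⟩
  have h4 : q ^ 2 ∣ (β ^ j * α) ^ (nrm q - 1) - 1 := by
    by_contra h5
    exact h2 ⟨fermat hp hp2 hq h (hu j), h5⟩
  have e : β ^ j * α = β ^ (j - i) * (β ^ i * α) := by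
    rw [← mul_assoc, ← pow_add]
    congr 2
    omega
  rw [e] at h4
  exact base_not hp hp2 hb hW hq h hβ hm hd (divW h4 h3)

lemma exists_prime_above {p : ℕ} (hp : p.Prime) : ∃ q : GaussianInt, Prime q ∧ q ∣ (p : GaussianInt) := by
  have h0 : (p : GaussianInt) ≠ 0 := by exact_mod_cast hp.ne_zero
  have h1 : ¬ IsUnit (p : GaussianInt) := by
    intro h
    have h2 : nrm (p : GaussianInt) = 1 := Zsqrtd.norm_eq_one_iff.2 h
    rw [nrm_nat] at h2
    have := hp.two_le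
    nlinarith
  obtain ⟨q, hq, hd⟩ := WfDvdMonoid.exists_irreducible_factor h1 h0
  exact ⟨q, hq.prime, hd⟩

/-! ### The poor elements -/

/-- `α` is poor: almost all Gaussian primes are Wieferich primes to the base `α` -/
def Poor (α : GaussianInt) : Prop :=
  ∃ B : ℕ, ∀ q : GaussianInt, Prime q → B < nrm q → q ^ 2 ∣ α ^ (nrm q - 1) - 1

lemma rich_iff {α : GaussianInt} (hα : α ≠ 0) : Rich α ↔ ¬ Poor α := by
  constructor
  · rintro h ⟨B, hB⟩
    obtain ⟨q, hq, hlt, hn⟩ := h B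
    exact hn.2 (hB q hq hlt)
  · intro h B
    unfold Poor at h
    push Not at h
    obtain ⟨q, hq, hlt, hn⟩ := h (B + nrm α + 4)
    refine ⟨q, hq, by omega, ?_, hn⟩
    obtain ⟨p, hp, hqp⟩ := exists_below hq
    have hp2 : p ≠ 2 := by
      rintro rfl
      rcases nrm_cases hp hq hqp with h1 | h1 <;> rw [h1] at hlt <;> omega
    refine fermat hp hp2 hq hqp fun hd => ?_
    have := nrm_le_of_dvd hd hα
    omega

lemma poor_mul {α β : GaussianInt} (h1 : Poor α) (h2 : Poor β) : Poor (α * β) := by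
  obtain ⟨B, hB⟩ := h1
  obtain ⟨C, hC⟩ := h2
  exact ⟨max B C, fun q hq hlt => mulW (hB q hq ((le_max_left _ _).trans_lt hlt))
    (hC q hq ((le_max_right _ _).trans_lt hlt))⟩

lemma poor_div {α β : GaussianInt} (h1 : Poor (α * β)) (h2 : Poor β) : Poor α := by
  obtain ⟨B, hB⟩ := h1
  obtain ⟨C, hC⟩ := h2
  exact ⟨max B C, fun q hq hlt => divW (hB q hq ((le_max_left _ _).trans_lt hlt))
    (hC q hq ((le_max_right _ _).trans_lt hlt))⟩

lemma poor_root {α : GaussianInt} (hα : α ≠ 0) {k : ℕ} (hk : 0 < k) (h : Poor (α ^ k)) : Poor α := by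
  obtain ⟨B, hB⟩ := h
  refine ⟨B + nrm α + k * k + 4, fun q hq hlt => ?_⟩
  obtain ⟨p, hp, hqp⟩ := exists_below hq
  have hp2 : p ≠ 2 := by
    rintro rfl
    rcases nrm_cases hp hq hqp with h1 | h1 <;> rw [h1] at hlt <;> omega
  have h1 := fermat hp hp2 hq hqp (α := α) fun hd => by
    have := nrm_le_of_dvd hd hα
    omega
  refine rootW hq h1 (k := k) (fun hd => ?_) ?_
  · have hk0 : (k : GaussianInt) ≠ 0 := by exact_mod_cast hk.ne'
    have := nrm_le_of_dvd hd hk0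
    rw [nrm_nat] at this
    omega
  · rw [← pow_mul, mul_comm, pow_mul]
    exact hB q hq (by omega)

lemma not_poor {b : ℕ} (hb : 1 ≤ b) (hinf : ∀ B : ℕ, ∃ p : ℕ, B < p ∧ p.Prime ∧ ¬ p ^ 2 ∣ b ^ (p - 1) - 1)
    {β : GaussianInt} {n m : ℕ} (hm : 0 < m) (hβ : β ^ n = ((b : ℤ) : GaussianInt) ^ m) {d : ℕ}
    (hd : 0 < d) : ¬ Poor (β ^ d) := by
  rintro ⟨B, hB⟩
  obtain ⟨p, hlt, hp, hW⟩ := hinf (B + b + m + d + 2)
  obtain ⟨q, hq, hqp⟩ := exists_prime_above hp
  refine base_not hp (by omega) (fun h => ?_) hW hq hqp hβ (fun h => ?_) (fun h => ?_)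
    (hB q hq ?_)
  · have := Nat.le_of_dvd (by omega) h
    omega
  · have := Nat.le_of_dvd hm h
    omega
  · have := Nat.le_of_dvd hd h
    omega
  · have := le_nrm hp hq hqp
    omega

lemma rich_or {β : GaussianInt} (hβ0 : β ≠ 0) (h : ∀ d : ℕ, 0 < d → ¬ Poor (β ^ d)) {α : GaussianInt}
    (hα : α ≠ 0) {k : ℕ} (hk : 0 < k) : Rich α ∨ Rich (β ^ k * α) := by
  rw [rich_iff hα, rich_iff (mul_ne_zero (pow_ne_zero _ hβ0) hα)]
  by_contra hcon
  push Not at hcon
  exact h k hk (poor_div hcon.2 hcon.1)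

/-- exact primitive divisors -/
def Exact (α : GaussianInt) (n : ℕ) : Prop :=
  ∃ q : GaussianInt, Prime q ∧ q ∣ α ^ n - 1 ∧ ¬ q ^ 2 ∣ α ^ n - 1 ∧
    ∀ m : ℕ, 1 ≤ m → m < n → ¬ q ∣ α ^ m - 1

lemma exact_of {α q : GaussianInt} (hq : Prime q) (h : NonWieferich α q) :
    ∃ n : ℕ, 1 ≤ n ∧ q ∣ α ^ n - 1 ∧ ¬ q ^ 2 ∣ α ^ n - 1 ∧
      ∀ m : ℕ, 1 ≤ m → m < n → ¬ q ∣ α ^ m - 1 := by
  classical
  obtain ⟨h1, h2⟩ := h
  have hE : 1 ≤ nrm q - 1 := by
    have := two_le_nrm hq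
    omega
  have hex : ∃ n : ℕ, 1 ≤ n ∧ q ∣ α ^ n - 1 := ⟨_, hE, h1⟩
  obtain ⟨hn1, hn2⟩ := Nat.find_spec hex
  set n := Nat.find hex with hn
  have hmin : ∀ m : ℕ, 1 ≤ m → m < n → ¬ q ∣ α ^ m - 1 := fun m hm1 hm2 hd =>
    Nat.find_min hex hm2 ⟨hm1, hd⟩
  have hdvd : n ∣ nrm q - 1 := by
    have h3 := Nat.div_add_mod (nrm q - 1) n
    have h4 : q ∣ α ^ ((nrm q - 1) % n) - 1 := by
      have h5 : q ∣ α ^ (n * ((nrm q - 1) / n)) - 1 := by
        rw [pow_mul]
        exact dvd_pow_sub_one hn2 _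
      have e : α ^ (nrm q - 1) - 1 = α ^ ((nrm q - 1) % n) * (α ^ (n * ((nrm q - 1) / n)) - 1) +
          (α ^ ((nrm q - 1) % n) - 1) := by
        nth_rewrite 1 [← h3]
        rw [pow_add]
        ring
      rw [e] at h1
      exact (dvd_add_right (h5.mul_left _)).1 h1
    rcases Nat.eq_zero_or_pos ((nrm q - 1) % n) with h5 | h5
    · exact Nat.dvd_of_mod_eq_zero h5
    · exact absurd h4 (hmin _ h5 (Nat.mod_lt _ (by omega)))
  refine ⟨n, hn1, hn2, fun h3 => h2 ?_, hmin⟩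
  obtain ⟨k, hk⟩ := hdvd
  rw [hk, pow_mul]
  exact dvd_pow_sub_one h3 _

theorem infinite_exact {α : GaussianInt} (h : Rich α) : {n : ℕ | Exact α n}.Infinite := by
  classical
  intro hfin
  obtain ⟨M, hM⟩ := hfin.bddAbove
  obtain ⟨q, hq, hlt, hn⟩ := h (∑ n ∈ Finset.range (M + 1), nrm (α ^ n - 1))
  obtain ⟨n, h1, h2, h3, h4⟩ := exact_of hq hn
  have h5 : n ≤ M := hM ⟨q, hq, h2, h3, h4⟩
  have h6 : α ^ n - 1 ≠ 0 := fun h0 => h3 (by rw [h0]; exact dvd_zero _)
  have h7 := nrm_le_of_dvd h2 h6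
  have h8 : nrm (α ^ n - 1) ≤ ∑ n ∈ Finset.range (M + 1), nrm (α ^ n - 1) :=
    Finset.single_le_sum (f := fun n => nrm (α ^ n - 1)) (fun _ _ => Nat.zero_le _)
      (Finset.mem_range.2 (by omega))
  omega

/-! ### Boxes -/

/-- the nonzero Gaussian integers `x + iy` with `|x|, |y| ≤ T` -/
noncomputable def box (T : ℕ) : Finset GaussianInt :=
  ((Finset.Icc (-(T : ℤ)) T ×ˢ Finset.Icc (-(T : ℤ)) T).image fun z => (⟨z.1, z.2⟩ : GaussianInt)).erase 0

lemma mem_box {T : ℕ} {α : GaussianInt} : α ∈ box T ↔ α ≠ 0 ∧ |α.re| ≤ T ∧ |α.im| ≤ T := by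
  unfold box
  rw [Finset.mem_erase, Finset.mem_image]
  constructor
  · rintro ⟨h0, ⟨x, y⟩, hxy, rfl⟩
    rw [Finset.mem_product, Finset.mem_Icc, Finset.mem_Icc] at hxy
    exact ⟨h0, abs_le.2 hxy.1, abs_le.2 hxy.2⟩
  · rintro ⟨h0, h1, h2⟩
    refine ⟨h0, ⟨α.re, α.im⟩, ?_, rfl⟩
    rw [Finset.mem_product, Finset.mem_Icc, Finset.mem_Icc]
    exact ⟨abs_le.1 h1, abs_le.1 h2⟩

lemma dvd_iff_even (α : GaussianInt) : (⟨1, 1⟩ : GaussianInt) ∣ α ↔ Even (α.re + α.im) := by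
  constructor
  · rintro ⟨c, rfl⟩
    rw [Zsqrtd.re_mul, Zsqrtd.im_mul]
    exact ⟨c.re, by ring⟩
  · rintro ⟨t, ht⟩
    refine ⟨⟨t, t - α.re⟩, ?_⟩
    apply Zsqrtd.ext
    · rw [Zsqrtd.re_mul]
      ring
    · rw [Zsqrtd.im_mul]
      linarith

lemma box_closed {T : ℕ} {β : GaussianInt} (h : (⟨1, 1⟩ : GaussianInt) * β ∈ box T) : β ∈ box T := by
  rw [mem_box] at h ⊢
  obtain ⟨h0, h1, h2⟩ := h
  refine ⟨right_ne_zero_of_mul h0, ?_, ?_⟩
  · rw [Zsqrtd.re_mul] at h1
    rw [Zsqrtd.im_mul] at h2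
    rw [abs_le] at *
    constructor <;> simp only at h1 h2 <;> omega
  · rw [Zsqrtd.re_mul] at h1
    rw [Zsqrtd.im_mul] at h2
    rw [abs_le] at *
    constructor <;> simp only at h1 h2 <;> omega

lemma card_multiples (T : ℕ) [DecidablePred fun α : GaussianInt => (⟨1, 1⟩ : GaussianInt) ∣ α] :
    2 * T ^ 2 + 2 * T ≤ ((box T).filter fun α => (⟨1, 1⟩ : GaussianInt) ∣ α).card := by
  classical
  set A : Finset GaussianInt := ((Finset.Icc (-(T : ℤ)) T ×ˢ Finset.Icc (-(T : ℤ)) T).image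
    fun z => (⟨z.1, z.2⟩ : GaussianInt)).filter fun α => (⟨1, 1⟩ : GaussianInt) ∣ α with hA
  have h1 : (Finset.range (2 * T ^ 2 + 2 * T + 1)).card ≤ A.card := by
    refine Finset.card_le_card_of_injOn (fun k => ⟨((2 * k / (2 * T + 1) : ℕ) : ℤ) - T,
      ((2 * k % (2 * T + 1) : ℕ) : ℤ) - T⟩) ?_ ?_
    · intro k hk
      rw [Finset.mem_coe, Finset.mem_range] at hk
      have e1 := Nat.div_add_mod (2 * k) (2 * T + 1)
      have e2 := Nat.mod_lt (2 * k) (show 0 < 2 * T + 1 by omega)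
      have e3 : 2 * k / (2 * T + 1) < 2 * T + 1 := by
        rw [Nat.div_lt_iff_lt_mul (by omega)]
        nlinarith
      rw [Finset.mem_coe, hA, Finset.mem_filter, Finset.mem_image]
      refine ⟨⟨(((2 * k / (2 * T + 1) : ℕ) : ℤ) - T, ((2 * k % (2 * T + 1) : ℕ) : ℤ) - T), ?_, rfl⟩, ?_⟩
      · rw [Finset.mem_product, Finset.mem_Icc, Finset.mem_Icc]
        simp only
        generalize 2 * k / (2 * T + 1) = a at *
        generalize 2 * k % (2 * T + 1) = b at *
        omega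
      · rw [dvd_iff_even]
        simp only
        generalize 2 * k / (2 * T + 1) = a at *
        generalize 2 * k % (2 * T + 1) = b at *
        refine ⟨(k : ℤ) - T * a - T, ?_⟩
        have e4 : ((2 * T + 1 : ℕ) : ℤ) * a + b = 2 * k := by exact_mod_cast e1
        push_cast at e4
        linarith
    · intro k _ l _ hkl
      have h2 := congrArg Zsqrtd.re hkl
      have h3 := congrArg Zsqrtd.im hkl
      simp only at h2 h3
      have e1 := Nat.div_add_mod (2 * k) (2 * T + 1)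
      have e2 := Nat.div_add_mod (2 * l) (2 * T + 1)
      have h4 : 2 * k / (2 * T + 1) = 2 * l / (2 * T + 1) := by omega
      have h5 : 2 * k % (2 * T + 1) = 2 * l % (2 * T + 1) := by omega
      rw [h4, h5] at e1
      omega
  have h2 : (box T).filter (fun α => (⟨1, 1⟩ : GaussianInt) ∣ α) = A.erase 0 := by
    rw [hA, ← Finset.filter_erase]
    rfl
  rw [h2]
  have h3 := Finset.pred_card_le_card_erase (s := A) (a := 0)
  rw [Finset.card_range] at h1
  omega

end Run7.h128.NW.Gau
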