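import Pool.Agent.Run7.h128.NW.Uni

/-!
# The norm criterion, with explicit conditions on the prime

If the odd prime `p` is not a Wieferich prime to the base `b`, then every `α` of norm `± b ^ a`,
`p ∤ a`, in a number field `K` in which `p` is unramified, `α` a unit above `p`, is a non-Wieferich
base at some prime of `K` above `p`.
-/

set_option autoImplicit false

namespace Run7.h128.NW

open NumberField IsDedekindDomain
open scoped WithZero
open Run7.h283.NW (NonWieferich discrete fermat norm_eq norm_congr val_pow_le int_val Gp)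

section Field

variable {K : Type} [Field K] [NumberField K]

lemma int_le_one (v : HeightOneSpectrum (𝓞 K)) (n : ℤ) : v.valuation K (n : K) ≤ 1 := by
  have h : (n : K) = algebraMap (𝓞 K) K (n : 𝓞 K) := by simp
  rw [h]
  exact v.valuation_le_one _

/-- a denominator prime to `p` -/
lemma exists_clear {p : ℕ} (hp : p.Prime) {α : K}
    (hα : ∀ v : HeightOneSpectrum (𝓞 K), (p : 𝓞 K) ∈ v.asIdeal → v.valuation K α ≤ 1) :
    ∃ (m : ℤ) (β : 𝓞 K), ¬ (p : ℤ) ∣ m ∧ algebraMap (𝓞 K) K β = m * α := by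
  classical
  have halg : IsAlgebraic ℤ α :=
    (IsFractionRing.isAlgebraic_iff ℤ ℚ K).2 (Algebra.IsAlgebraic.isAlgebraic α)
  obtain ⟨m, hm0, hint⟩ := halg.exists_integral_multiple
  have hex : ∃ k : ℕ, 0 < k ∧ ∃ β : 𝓞 K, algebraMap (𝓞 K) K β = (k : K) * α := by
    refine ⟨m.natAbs, Int.natAbs_pos.2 hm0, ?_⟩
    obtain ⟨β, hβ⟩ : ∃ β : 𝓞 K, algebraMap (𝓞 K) K β = m * α :=
      ⟨⟨m • α, hint⟩, by rw [← zsmul_eq_mul]; rfl⟩
    rcases Int.natAbs_eq m with h | h
    · refine ⟨β, ?_⟩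
      rw [hβ, h]
      push_cast
      simp
    · refine ⟨-β, ?_⟩
      rw [map_neg, hβ, h]
      push_cast
      simp
  set k := Nat.find hex with hk
  obtain ⟨hk0, β, hβ⟩ := Nat.find_spec hex
  rw [← hk] at hk0 hβ
  refine ⟨k, β, ?_, by rw [hβ]; push_cast; rfl⟩
  intro hd
  obtain ⟨l, hl⟩ := Int.natCast_dvd_natCast.1 hd
  have hl0 : 0 < l := by
    rcases Nat.eq_zero_or_pos l with h | h
    · rw [h, mul_zero] at hl; omega
    · exact h
  have hlk : l < k := by
    rw [hl]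
    have := hp.two_le
    nlinarith
  refine Nat.find_min hex hlk ⟨hl0, ?_⟩
  obtain ⟨z, hz⟩ := HeightOneSpectrum.mem_integers_of_valuation_le_one (R := 𝓞 K) (K := K)
    ((l : K) * α) (fun v => by
      by_cases hv : (p : 𝓞 K) ∈ v.asIdeal
      · rw [map_mul]
        have h1 : v.valuation K (l : K) ≤ 1 := by exact_mod_cast int_le_one v (l : ℤ)
        exact mul_le_one' h1 (hα v hv)
      · have h1 : v.valuation K ((p : ℕ) : K) = 1 := by
          have := (val_eq_one_iff (K := K) v ((p : ℕ) : 𝓞 K)).2 hv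
          rwa [map_natCast] at this
        have h2 : v.valuation K (((k : ℕ) : K) * α) ≤ 1 := by
          rw [← hβ]
          exact v.valuation_le_one _
        rw [hl] at h2
        push_cast at h2
        rw [mul_assoc, map_mul, h1, one_mul] at h2
        exact h2)
  exact ⟨z, hz⟩

/-- **The norm criterion with explicit conditions.** -/
theorem norm_nonWief {p b : ℕ} (hp : p.Prime) (hp2 : p ≠ 2) (hb : ¬ p ∣ b)
    (hW : ¬ p ^ 2 ∣ b ^ (p - 1) - 1) (hd : ¬ (p : ℤ) ∣ discr K) {α : K}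
    (hα : ∀ v : HeightOneSpectrum (𝓞 K), (p : 𝓞 K) ∈ v.asIdeal → v.valuation K α = 1)
    {a : ℤ} (ha : ¬ (p : ℤ) ∣ a) (h : |Algebra.norm ℚ α| = (b : ℚ) ^ a) :
    ∃ v : HeightOneSpectrum (𝓞 K), (p : 𝓞 K) ∈ v.asIdeal ∧ NonWieferich K α v := by
  have : Fact p.Prime := ⟨hp⟩
  by_contra hno
  push Not at hno
  obtain ⟨m, β, hm, hβ⟩ := exists_clear hp fun v hv => (hα v hv).le
  set N : ℕ := (Module.finrank ℤ (𝓞 K)).factorial with hN
  have hNpos : 1 ≤ N := Nat.one_le_iff_ne_zero.2 (Nat.factorial_ne_zero _)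
  have hpN : 1 ≤ p ^ N - 1 := by
    have h1 : p ^ 1 ≤ p ^ N := Nat.pow_le_pow_right hp.pos hNpos
    have := hp.two_le
    rw [pow_one] at h1
    omega
  have hE : ∀ v : HeightOneSpectrum (𝓞 K), (p : 𝓞 K) ∈ v.asIdeal →
      v.valuation K (α ^ (p ^ N - 1) - 1) ≤ WithZero.exp (-2 : ℤ) := by
    intro v hv
    have h1 := hα v hv
    obtain ⟨f, hf1, hf2, hf⟩ := norm_eq hp v hv
    have h2 : Ideal.absNorm v.asIdeal - 1 ∣ p ^ N - 1 := by
      rw [hf]
      exact Nat.pow_sub_one_dvd_pow_sub_one p (Nat.dvd_factorial hf1 hf2)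
    exact (val_pow_le v h1 h2).trans (wief_le h1 (hno v hv))
  have h5 := norm_congr hp hd hβ hE
  have hpz : Prime (p : ℤ) := Nat.prime_iff_prime_int.1 hp
  have h6 : ¬ (p : ℤ) ∣ m ^ Module.finrank ℤ (𝓞 K) := fun h7 => hm (hpz.dvd_of_dvd_pow h7)
  have hn : ¬ (p : ℤ) ∣ Algebra.norm ℤ β := by
    intro h7
    apply h6
    have h8 : (p : ℤ) ∣ Algebra.norm ℤ β ^ (p ^ N - 1) := dvd_pow h7 (by omega)
    have h9 : (p : ℤ) ∣ Algebra.norm ℤ β ^ (p ^ N - 1) -
        (m ^ Module.finrank ℤ (𝓞 K)) ^ (p ^ N - 1) := (dvd_pow_self _ two_ne_zero).trans h5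
    exact hpz.dvd_of_dvd_pow ((dvd_sub_right h8).1 h9)
  have h8 := Gp.of_dvd (p := p) hn h6 h5
  have h9 : Algebra.norm ℚ α = (Algebra.norm ℤ β : ℚ) / ((m ^ Module.finrank ℤ (𝓞 K) : ℤ) : ℚ) := by
    have hm0 : m ≠ 0 := by
      rintro rfl
      exact hm (dvd_zero _)
    have hβ' : (β : K) = m * α := hβ
    rw [Algebra.coe_norm_int, hβ', map_mul]
    have h10 : Algebra.norm ℚ ((m : ℤ) : K) = (m : ℚ) ^ Module.finrank ℤ (𝓞 K) := by
      have h11 : ((m : ℤ) : K) = algebraMap ℚ K (m : ℚ) := by simp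
      rw [h11, Algebra.norm_algebraMap, RingOfIntegers.rank]
    have hm0' : (m : ℚ) ≠ 0 := by exact_mod_cast hm0
    rw [h10]
    push_cast
    field_simp
  rw [← h9] at h8
  have hodd : Odd p := hp.odd_of_ne_two hp2
  have heven : Even (p ^ N - 1) := Nat.Odd.sub_odd hodd.pow odd_one
  have h10 := h8.abs heven
  rw [h] at h10
  exact hW (Gp.base hNpos hb ha h10)

end Field

end Run7.h128.NW
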