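import Pool.Agent.Run7.h128.NW.Wq
import Pool.Agent.Run7.h128.NW.Elem
import Pool.Agent.Results.MP_4d5ce1_nt.CyclotomicNonWieferich

/-!
# The element `3 - φ` of norm five, and the Fibonacci numbers
-/

set_option autoImplicit false

namespace Run7.h128.NW.Phi

open NumberField IsDedekindDomain
open scoped WithZero
open Run7.h283.NW (NonWieferich discrete fermat norm_eq val_pow_le int_val unit_large global)
open Run7.h128.NW

section Ring

variable {A : Type*} [CommRing A]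

lemma zeta_sum [IsDomain A] {ζ : A} (h : IsPrimitiveRoot ζ 5) : 1 + ζ + ζ ^ 2 + ζ ^ 3 + ζ ^ 4 = 0 := by
  have h1 := h.geom_sum_eq_zero (by norm_num)
  simpa [Finset.sum_range_succ] using h1

/-- the golden ratio attached to a fifth root of unity -/
def gold (ζ : A) : A := 1 + ζ + ζ ^ 4

lemma gold_sq [IsDomain A] {ζ : A} (h : IsPrimitiveRoot ζ 5) : gold ζ ^ 2 = gold ζ + 1 := by
  have h1 := zeta_sum h
  have h5 := h.pow_eq_one
  unfold gold
  linear_combination (2 + ζ ^ 3) * h5 + h1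

lemma three_sub {ζ : A} (h : ζ ^ 5 = 1) : 3 - gold ζ = (1 - ζ) ^ 2 * (-ζ ^ 4) := by
  unfold gold
  linear_combination (ζ - 2) * h

lemma three_sub_mul {φ : A} (h : φ ^ 2 = φ + 1) : (3 - φ) * (2 + φ) = 5 := by
  linear_combination -h

lemma gold_two [IsDomain A] {ζ : A} (h : IsPrimitiveRoot ζ 5) : gold (ζ ^ 2) = 1 - gold ζ := by
  have h1 := zeta_sum h
  have h5 := h.pow_eq_one
  unfold gold
  linear_combination ζ ^ 3 * h5 + h1

/-- powers of the golden ratio -/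
lemma fib_pow {φ : A} (h : φ ^ 2 = φ + 1) (n : ℕ) :
    φ ^ (n + 1) = (Nat.fib (n + 1) : A) * φ + (Nat.fib n : A) := by
  induction n with
  | zero => simp
  | succ n ih =>
    rw [pow_succ, ih, Nat.fib_add_two]
    push_cast
    linear_combination (Nat.fib (n + 1) : A) * h

/-- an even index `n` with `q ∣ F_n` -/
lemma fib_one {φ q : A} (h : φ ^ 2 = φ + 1) {n : ℕ} (hn : 1 ≤ n) (he : Even n)
    (hq : q ∣ (Nat.fib n : A)) : q ∣ (φ - 1) ^ (2 * n) - 1 := by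
  obtain ⟨m, rfl⟩ : ∃ m, n = m + 1 := ⟨n - 1, by omega⟩
  have h1 := fib_pow h m
  have h' : (1 - φ) ^ 2 = (1 - φ) + 1 := by linear_combination h
  have h2 := fib_pow h' m
  have h3 : q ∣ φ ^ (m + 1) - (Nat.fib m : A) := by
    rw [h1, add_sub_cancel_right]
    exact hq.mul_right _
  have h4 : q ∣ (1 - φ) ^ (m + 1) - (Nat.fib m : A) := by
    rw [h2, add_sub_cancel_right]
    exact hq.mul_right _
  have h5 : φ ^ (m + 1) * (1 - φ) ^ (m + 1) = 1 := by
    rw [← mul_pow]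
    have e : φ * (1 - φ) = -1 := by linear_combination -h
    rw [e, he.neg_one_pow]
  have h6 : q ∣ 1 - (Nat.fib m : A) ^ 2 := by
    have e : 1 - (Nat.fib m : A) ^ 2 = (φ ^ (m + 1) - (Nat.fib m : A)) * (1 - φ) ^ (m + 1) +
        (Nat.fib m : A) * ((1 - φ) ^ (m + 1) - (Nat.fib m : A)) := by
      linear_combination -h5
    rw [e]
    exact dvd_add (h3.mul_right _) (h4.mul_left _)
  have h7 : (φ - 1) ^ (2 * (m + 1)) - 1 = ((1 - φ) ^ (m + 1) - (Nat.fib m : A)) *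
      ((1 - φ) ^ (m + 1) + (Nat.fib m : A)) - (1 - (Nat.fib m : A) ^ 2) := by
    have e : (φ - 1) ^ (2 * (m + 1)) = (1 - φ) ^ (2 * (m + 1)) := by
      rw [← neg_sub 1 φ, Even.neg_pow (even_two_mul _)]
    rw [e, mul_comm 2, pow_mul]
    ring
  rw [h7]
  exact dvd_sub (h4.mul_right _) h6

/-- Wieferich to the base `5` and `p² ∣ F_n`, `n = p ± 1` -/
lemma both {p : ℕ} (hp : p.Prime) (hp2 : p ≠ 2) (h5 : p ^ 2 ∣ 5 ^ (p - 1) - 1)
    (hF : p ^ 2 ∣ Nat.fib (p - 1) ∨ p ^ 2 ∣ Nat.fib (p + 1)) {φ : A} (h : φ ^ 2 = φ + 1) :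
    ((p : A)) ^ 2 ∣ (3 - φ) ^ (2 * ((p - 1) * (p + 1))) - 1 := by
  have hodd : p % 2 = 1 := Nat.odd_iff.1 (hp.odd_of_ne_two hp2)
  have hp1 := hp.two_le
  have e : (3 - φ) ^ 2 = 5 * (φ - 1) ^ 2 := by linear_combination -4 * h
  rw [pow_mul, e, mul_pow]
  have h1 : ((p : A)) ^ 2 ∣ (5 : A) ^ ((p - 1) * (p + 1)) - 1 := by
    rw [pow_mul]
    refine dvd_pow_sub_one ?_ _
    obtain ⟨c, hc⟩ := h5
    have h6 : 1 ≤ 5 ^ (p - 1) := Nat.one_le_pow _ _ (by norm_num)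
    have h7 : (5 : ℕ) ^ (p - 1) = p ^ 2 * c + 1 := by omega
    refine ⟨(c : A), ?_⟩
    have h8 := congrArg (Nat.cast : ℕ → A) h7
    push_cast at h8
    linear_combination h8
  have h2 : ((p : A)) ^ 2 ∣ ((φ - 1) ^ 2) ^ ((p - 1) * (p + 1)) - 1 := by
    have cast : ∀ n : ℕ, p ^ 2 ∣ Nat.fib n → ((p : A)) ^ 2 ∣ (Nat.fib n : A) := by
      rintro n ⟨c, hc⟩
      exact ⟨(c : A), by rw [hc]; push_cast; ring⟩
    rcases hF with h6 | h6
    · have h7 := fib_one h (n := p - 1) (by omega) (by rw [Nat.even_iff]; omega) (cast _ h6)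
      have h8 := dvd_pow_sub_one h7 (p + 1)
      rw [← pow_mul] at h8
      rw [← pow_mul]
      convert h8 using 3
      ring
    · have h7 := fib_one h (n := p + 1) (by omega) (by rw [Nat.even_iff]; omega) (cast _ h6)
      have h8 := dvd_pow_sub_one h7 (p - 1)
      rw [← pow_mul] at h8
      rw [← pow_mul]
      convert h8 using 3
      ring
  have h3 := mulW (q := ((p : A)) ^ 2) (α := (5 : A)) (β := (φ - 1) ^ 2) h1 h2
  rw [mul_pow] at h3
  exact h3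

end Ring

/-! ### The cyclotomic field -/

abbrev L : Type := CyclotomicField 5 ℚ

instance cycL : IsCyclotomicExtension {5} ℚ L := CyclotomicField.isCyclotomicExtension 5 ℚ

/-- **Key lemma.** If `(1 - ζ) ^ (NP - 1) ≢ 1` modulo `P²`, then no power of `3 - gold ζ` with
exponent prime to `p` is `1` modulo `p²`. -/
lemma key {p : ℕ} (hp : p.Prime) (h10 : 10 < p) {ζ : 𝓞 L} (hζ : IsPrimitiveRoot ζ 5) {P : Ideal (𝓞 L)}
    (hP : P.IsPrime) (hpP : (p : 𝓞 L) ∈ P) (hn : (1 - ζ) ^ (Ideal.absNorm P - 1) - 1 ∉ P ^ 2) {E : ℕ}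
    (hE : ¬ p ∣ E) (h : (p : 𝓞 L) ^ 2 ∣ (3 - gold ζ) ^ E - 1) : False := by
  have hP0 : P ≠ ⊥ := by
    rintro rfl
    rw [Ideal.mem_bot] at hpP
    exact hp.ne_zero (by exact_mod_cast hpP)
  obtain ⟨v, rfl⟩ : ∃ v : HeightOneSpectrum (𝓞 L), v.asIdeal = P := ⟨⟨P, hP, hP0⟩, rfl⟩
  have h5 : v.valuation L ((5 : ℤ) : L) = 1 := int_val p hp v hpP (by
    intro hd
    have := Int.le_of_dvd (by norm_num) hd
    omega)
  have hle : ∀ a : 𝓞 L, v.valuation L (algebraMap (𝓞 L) L a) ≤ 1 := fun a => v.valuation_le_one a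
  have h1 : v.valuation L (algebraMap (𝓞 L) L (1 - ζ)) = 1 := by
    have e : (1 - ζ) * ((1 - ζ) * (-ζ ^ 4) * (2 + gold ζ)) = 5 := by
      have e1 := three_sub (ζ := ζ) hζ.pow_eq_one
      have e2 := three_sub_mul (gold_sq hζ)
      rw [← e2, e1]
      ring
    have e3 := congrArg (fun z => v.valuation L (algebraMap (𝓞 L) L z)) e
    simp only [map_mul] at e3
    have e4 : v.valuation L (algebraMap (𝓞 L) L 5) = 1 := by
      rw [← h5]
      congr 1
    rw [e4] at e3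
    refine le_antisymm (hle _) ?_
    have e5 := hle ((1 - ζ) * (-ζ ^ 4) * (2 + gold ζ))
    simp only [map_mul] at e5
    calc (1 : ℤᵐ⁰) = v.valuation L (algebraMap (𝓞 L) L (1 - ζ)) *
          (v.valuation L (algebraMap (𝓞 L) L (1 - ζ)) * v.valuation L (algebraMap (𝓞 L) L (-ζ ^ 4)) *
            v.valuation L (algebraMap (𝓞 L) L (2 + gold ζ))) := e3.symm
      _ ≤ v.valuation L (algebraMap (𝓞 L) L (1 - ζ)) * 1 := mul_le_mul' le_rfl e5
      _ = _ := mul_one _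
  have h2 : (p : 𝓞 L) ^ 2 ∣ (1 - ζ) ^ (20 * E) - 1 := by
    have e1 : (1 - ζ) ^ (20 * E) = ((3 - gold ζ) ^ E) ^ 10 := by
      rw [three_sub hζ.pow_eq_one]
      have e2 : (-ζ ^ 4) ^ 10 = 1 := by
        have e3 : (-ζ ^ 4) ^ 10 = (ζ ^ 5) ^ 8 := by ring
        rw [e3, hζ.pow_eq_one, one_pow]
      rw [← pow_mul, mul_pow, ← pow_mul, mul_comm E 10, pow_mul (-ζ ^ 4), e2, one_pow, mul_one]
      congr 1
      ring
    rw [e1]
    exact dvd_pow_sub_one h 10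
  have h20 : ((20 * E : ℕ) : 𝓞 L) ∉ v.asIdeal := nat_not_mem hp hpP (by
    intro hd
    rcases hp.dvd_mul.1 hd with h3 | h3
    · have h4 : p ∣ 2 * 2 * 5 := h3
      rcases hp.dvd_mul.1 h4 with h5 | h5
      · rcases hp.dvd_mul.1 h5 with h6 | h6 <;>
        · have := Nat.le_of_dvd (by norm_num) h6
          omega
      · have := Nat.le_of_dvd (by norm_num) h5
        omega
    · exact hE h3)
  have h3 : v.valuation L ((algebraMap (𝓞 L) L (1 - ζ)) ^ (20 * E) - 1) ≤ WithZero.exp (-2 : ℤ) := by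
    have e : (algebraMap (𝓞 L) L (1 - ζ)) ^ (20 * E) - 1 =
        algebraMap (𝓞 L) L ((1 - ζ) ^ (20 * E) - 1) := by
      simp only [map_sub, map_pow, map_one]
    rw [e, v.valuation_of_algebraMap]
    have h5 : (-2 : ℤ) = -((2 : ℕ) : ℤ) := by norm_num
    rw [h5]
    refine (v.intValuation_le_pow_iff_mem _ 2).2 ?_
    obtain ⟨c, hc⟩ := h2
    rw [hc]
    exact Ideal.mul_mem_right _ _ (Ideal.pow_mem_pow hpP 2)
  have h4 : ¬ NonWieferich L ((algebraMap (𝓞 L) L (1 - ζ)) ^ (20 * E)) v := by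
    refine not_nonWief ((val_pow_le v (by rw [map_pow, h1, one_pow]) (one_dvd _)).trans ?_)
    rw [pow_one]
    exact h3
  have h6 := wief_le h1 (nonWief_root h20 h1 h4)
  have e : (algebraMap (𝓞 L) L (1 - ζ)) ^ (Ideal.absNorm v.asIdeal - 1) - 1 =
      algebraMap (𝓞 L) L ((1 - ζ) ^ (Ideal.absNorm v.asIdeal - 1) - 1) := by
    simp only [map_sub, map_pow, map_one]
  rw [e, v.valuation_of_algebraMap] at h6
  have h7 : (-2 : ℤ) = -((2 : ℕ) : ℤ) := by norm_num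
  rw [h7] at h6
  exact hn ((v.intValuation_le_pow_iff_mem _ 2).1 h6)

/-- transfer from a field containing the golden ratio to the cyclotomic field -/
lemma transfer {K : Type} [Field K] [NumberField K] {φ : 𝓞 K} (hφ : φ ^ 2 = φ + 1) {ζ : 𝓞 L}
    (hζ : IsPrimitiveRoot ζ 5) : ∃ ζ' : 𝓞 L, IsPrimitiveRoot ζ' 5 ∧ ∀ (p : ℕ), p ≠ 0 → ∀ (E : ℕ),
      (p : 𝓞 K) ^ 2 ∣ (3 - φ) ^ E - 1 → (p : 𝓞 L) ^ 2 ∣ (3 - gold ζ') ^ E - 1 := by
  let σ : K →+* ℂ := Classical.arbitrary (K →+* ℂ)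
  let τ : L →+* ℂ := Classical.arbitrary (L →+* ℂ)
  have ha : (σ (φ : K)) ^ 2 = σ (φ : K) + 1 := by
    rw [← map_pow, ← map_one σ, ← map_add]
    congr 1
    exact_mod_cast congrArg (algebraMap (𝓞 K) K) hφ
  have hb : (τ ((gold ζ : 𝓞 L) : L)) ^ 2 = τ ((gold ζ : 𝓞 L) : L) + 1 := by
    rw [← map_pow, ← map_one τ, ← map_add]
    congr 1
    exact_mod_cast congrArg (algebraMap (𝓞 L) L) (gold_sq hζ)
  have hex : ∃ ζ' : 𝓞 L, IsPrimitiveRoot ζ' 5 ∧ σ (φ : K) = τ ((gold ζ' : 𝓞 L) : L) := by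
    have h1 : (σ (φ : K) - τ ((gold ζ : 𝓞 L) : L)) * (σ (φ : K) + τ ((gold ζ : 𝓞 L) : L) - 1) = 0 := by
      linear_combination ha - hb
    rcases mul_eq_zero.1 h1 with h2 | h2
    · exact ⟨ζ, hζ, sub_eq_zero.1 h2⟩
    · refine ⟨ζ ^ 2, hζ.pow_of_coprime 2 (by norm_num), ?_⟩
      rw [gold_two hζ]
      have e : (((1 - gold ζ : 𝓞 L)) : L) = 1 - ((gold ζ : 𝓞 L) : L) := by push_cast; rfl
      rw [e, map_sub, map_one]
      linear_combination h2
  obtain ⟨ζ', hζ', heq⟩ := hex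
  refine ⟨ζ', hζ', fun p hp0 E hd => ?_⟩
  obtain ⟨z, hz⟩ := hd
  have hpL : ((p : ℕ) : L) ≠ 0 := by exact_mod_cast hp0
  set u : L := ((3 - ((gold ζ' : 𝓞 L) : L)) ^ E - 1) / (p : L) ^ 2 with hu
  have hτu : τ u = σ (z : K) := by
    have h1 : σ ((3 - (φ : K)) ^ E - 1) = σ ((p : K) ^ 2 * (z : K)) := by
      congr 1
      have h0 := congrArg (algebraMap (𝓞 K) K) hz
      simp only [map_sub, map_pow, map_one, map_mul, map_natCast, map_ofNat] at h0
      exact h0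
    rw [hu, map_div₀, div_eq_iff (by
      rw [map_pow, map_natCast]
      exact pow_ne_zero 2 (by exact_mod_cast hp0))]
    rw [map_sub, map_pow, map_sub, map_mul, map_pow, map_one, map_natCast, map_ofNat] at h1
    rw [map_sub, map_pow, map_sub, map_pow, map_one, map_natCast, map_ofNat, ← heq, h1]
    ring
  have hint : IsIntegral ℤ u := by
    have h1 : IsIntegral ℤ (σ (z : K)) := (z.isIntegral_coe).map σ.toIntAlgHom
    rw [← hτu] at h1
    exact (isIntegral_algHom_iff τ.toIntAlgHom τ.injective).1 h1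
  refine ⟨⟨u, hint⟩, ?_⟩
  apply RingOfIntegers.ext
  push_cast
  change (3 - ((gold ζ' : 𝓞 L) : L)) ^ E - 1 = (p : L) ^ 2 * u
  rw [hu]
  field_simp

/-- the density theorem of helper510 for the fifth roots of unity -/
lemma base_density : ∃ x₀ : ℕ, ∀ ζ : 𝓞 L, IsPrimitiveRoot ζ 5 → ∀ R : ℕ → Prop,
    (∀ p : ℕ, p.Prime → 10 < p → (∀ E : ℕ, ¬ p ∣ E → ¬ (p : 𝓞 L) ^ 2 ∣ (3 - gold ζ) ^ E - 1) → R p) →
    ∀ x : ℕ, x₀ ≤ x →
      (x : ℝ) / (185 * Real.log x) ≤ ({p : ℕ | p ≤ x ∧ p.Prime ∧ R p}.ncard : ℝ) := by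
  classical
  obtain ⟨x₀, h⟩ := Pool.Agent.Results.MP_4d5ce1_nt.CyclotomicNonWieferich.result 5 (by norm_num)
    (Nat.Prime.isPrimePow (by norm_num))
  refine ⟨x₀, fun ζ hζ R hR x hx => ?_⟩
  have h1 := h L ζ hζ x hx
  have e : (37 : ℝ) * ((5 : ℕ) : ℝ) * Real.log x = 185 * Real.log x := by
    push_cast
    ring
  rw [e] at h1
  refine h1.trans ?_
  have hfin : {p : ℕ | p ≤ x ∧ p.Prime ∧ R p}.Finite :=
    (Set.finite_Iic x).subset (fun p hp => hp.1)
  rw [← Set.ncard_coe_finset]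
  refine Nat.cast_le.2 (Set.ncard_le_ncard ?_ hfin)
  intro p hp
  rw [Finset.mem_coe, Finset.mem_filter, Finset.mem_range] at hp
  obtain ⟨hpx, hpp, h10, P, hP, hpP, hn⟩ := hp
  exact ⟨by omega, hpp, hR p hpp (by omega) fun E hE hd => key hpp (by omega) hζ hP hpP hn hE hd⟩

/-- **Theorem.** Fields containing the golden ratio. -/
theorem gold_density : ∃ x₀ : ℕ, ∀ (K : Type) [Field K] [NumberField K] (φ : 𝓞 K), φ ^ 2 = φ + 1 →
    ∀ x : ℕ, x₀ ≤ x → (x : ℝ) / (185 * Real.log x) ≤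
      ({p : ℕ | p ≤ x ∧ p.Prime ∧ ((p : ℤ) ∣ discr K ∨ ∃ v : HeightOneSpectrum (𝓞 K),
        (p : 𝓞 K) ∈ v.asIdeal ∧ NonWieferich K (3 - (φ : K)) v)}.ncard : ℝ) := by
  obtain ⟨x₀, h⟩ := base_density
  refine ⟨x₀, fun K _ _ φ hφ x hx => ?_⟩
  have hζ0 : IsPrimitiveRoot (IsCyclotomicExtension.zeta_spec 5 ℚ L).toInteger 5 :=
    (IsCyclotomicExtension.zeta_spec 5 ℚ L).toInteger_isPrimitiveRoot
  obtain ⟨ζ, hζ, htr⟩ := transfer hφ hζ0
  refine h ζ hζ _ (fun p hp h10 hE => ?_) x hx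
  by_contra hcon
  push Not at hcon
  obtain ⟨hd, hno⟩ := hcon
  set N : ℕ := (Module.finrank ℤ (𝓞 K)).factorial with hN
  have hNpos : 1 ≤ N := Nat.one_le_iff_ne_zero.2 (Nat.factorial_ne_zero _)
  have hval : ∀ v : HeightOneSpectrum (𝓞 K), (p : 𝓞 K) ∈ v.asIdeal →
      v.valuation K (3 - (φ : K)) = 1 := by
    intro v hv
    have h5 : v.valuation K ((5 : ℤ) : K) = 1 := int_val p hp v hv (by
      intro hd
      have := Int.le_of_dvd (by norm_num) hd
      omega)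
    have e2 := three_sub_mul hφ
    have e3 := congrArg (fun z => v.valuation K (algebraMap (𝓞 K) K z)) e2
    simp only [map_mul] at e3
    have e4 : v.valuation K (algebraMap (𝓞 K) K 5) = 1 := by
      rw [← h5]
      congr 1
      rw [map_ofNat (algebraMap (𝓞 K) K) 5]
      norm_num
    rw [e4] at e3
    have e5 : algebraMap (𝓞 K) K (3 - φ) = 3 - (φ : K) := by
      simp only [map_sub, map_ofNat]
    rw [← e5]
    refine le_antisymm (v.valuation_le_one _) ?_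
    calc (1 : ℤᵐ⁰) = v.valuation K (algebraMap (𝓞 K) K (3 - φ)) *
          v.valuation K (algebraMap (𝓞 K) K (2 + φ)) := e3.symm
      _ ≤ v.valuation K (algebraMap (𝓞 K) K (3 - φ)) * 1 :=
          mul_le_mul' le_rfl (v.valuation_le_one _)
      _ = _ := mul_one _
  have hE' : ∀ v : HeightOneSpectrum (𝓞 K), (p : 𝓞 K) ∈ v.asIdeal →
      v.valuation K ((3 - (φ : K)) ^ (p ^ N - 1) - 1) ≤ WithZero.exp (-2 : ℤ) := by
    intro v hv
    have h1 := hval v hv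
    obtain ⟨f, hf1, hf2, hf⟩ := norm_eq hp v hv
    have h2 : Ideal.absNorm v.asIdeal - 1 ∣ p ^ N - 1 := by
      rw [hf]
      exact Nat.pow_sub_one_dvd_pow_sub_one p (Nat.dvd_factorial hf1 hf2)
    exact (val_pow_le v h1 h2).trans (wief_le h1 (hno v hv))
  obtain ⟨z, hz⟩ := global hp hd (α := 3 - (φ : K)) (m := 1) (β := 3 - φ) (by
    simp only [map_sub, map_ofNat]
    push_cast
    ring) hE'
  have hdvd : (p : 𝓞 K) ^ 2 ∣ (3 - φ) ^ (p ^ N - 1) - 1 := by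
    refine ⟨z, ?_⟩
    rw [hz, one_pow]
    push_cast
    ring
  refine hE (p ^ N - 1) (fun h1 => ?_) (htr p hp.ne_zero _ hdvd)
  have h2 : p ∣ p ^ N := dvd_pow_self p (by omega)
  have h3 : 1 ≤ p ^ N := Nat.one_le_pow _ _ hp.pos
  have h4 := (Nat.dvd_sub_iff_right h3 h2).1 h1
  exact hp.one_lt.ne' (Nat.dvd_one.1 h4)

/-- **Theorem.** Fibonacci numbers and the base five. -/
theorem fib_density : ∃ x₀ : ℕ, ∀ x : ℕ, x₀ ≤ x → (x : ℝ) / (185 * Real.log x) ≤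
    ({p : ℕ | p ≤ x ∧ p.Prime ∧ (¬ p ^ 2 ∣ 5 ^ (p - 1) - 1 ∨
      (¬ p ^ 2 ∣ Nat.fib (p - 1) ∧ ¬ p ^ 2 ∣ Nat.fib (p + 1)))}.ncard : ℝ) := by
  obtain ⟨x₀, h⟩ := base_density
  have hζ : IsPrimitiveRoot (IsCyclotomicExtension.zeta_spec 5 ℚ L).toInteger 5 :=
    (IsCyclotomicExtension.zeta_spec 5 ℚ L).toInteger_isPrimitiveRoot
  refine ⟨x₀, fun x hx => h _ hζ _ (fun p hp h10 hE => ?_) x hx⟩
  by_contra hcon
  push Not at hcon
  refine hE _ ?_ (both hp (by omega) hcon.1 ?_ (gold_sq hζ))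
  · intro hd
    rcases hp.dvd_mul.1 hd with h1 | h1
    · have := Nat.le_of_dvd (by norm_num) h1
      omega
    · rcases hp.dvd_mul.1 h1 with h2 | h2
      · have := Nat.le_of_dvd (by omega) h2
        omega
      · have h3 := (Nat.dvd_add_right (dvd_refl p)).1 h2
        exact hp.one_lt.ne' (Nat.dvd_one.1 h3)
  · by_cases h1 : p ^ 2 ∣ Nat.fib (p - 1)
    · exact Or.inl h1
    · exact Or.inr (hcon.2 h1)

section Group

variable {K : Type} [Field K] [NumberField K]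

/-- a positive proportion of all primes contains large primes -/
lemma inf_of {R : ℕ → Prop} (h : ∃ x₀ : ℕ, ∀ x : ℕ, x₀ ≤ x →
    (x : ℝ) / (185 * Real.log x) ≤ ({p : ℕ | p ≤ x ∧ R p}.ncard : ℝ)) (P : ℕ) :
    ∃ p : ℕ, P < p ∧ R p := by
  obtain ⟨x₀, h⟩ := h
  obtain ⟨x₁, h1⟩ := Run7.h283.NW.big_div_log (185 * (P + 2))
  by_contra hcon
  push Not at hcon
  set x : ℕ := max x₀ (max x₁ 2) with hx
  have h2 := h x (le_max_left _ _)
  have h3 := h1 x ((le_max_left _ _).trans (le_max_right _ _))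
  have h4 : {p : ℕ | p ≤ x ∧ R p}.ncard ≤ P + 1 := by
    have h5 : {p : ℕ | p ≤ x ∧ R p} ⊆ ((Finset.range (P + 1) : Finset ℕ) : Set ℕ) := by
      intro p hp
      rw [Finset.mem_coe, Finset.mem_range]
      by_contra hlt
      exact hcon p (by omega) hp.2
    have h6 := Set.ncard_le_ncard h5
    rwa [Set.ncard_coe_finset, Finset.card_range] at h6
  have h5 : (({p : ℕ | p ≤ x ∧ R p}.ncard : ℕ) : ℝ) ≤ P + 1 := by exact_mod_cast h4
  have hlog : 0 < Real.log x := Real.log_pos (by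
    have : 2 ≤ x := (le_max_right _ _).trans (le_max_right _ _)
    exact_mod_cast this)
  have e : (x : ℝ) / (185 * Real.log x) = ((x : ℝ) / Real.log x) / 185 := by field_simp
  rw [e] at h2
  linarith

/-- `3 - φ` is not in `W K` -/
theorem gold_not_mem {φ : 𝓞 K} (hφ : φ ^ 2 = φ + 1) {u : Kˣ} (hu : (u : K) = 3 - (φ : K)) :
    u ∉ W K := by
  intro hW
  obtain ⟨B, hB⟩ := W_large hW
  obtain ⟨x₀, h⟩ := gold_density
  obtain ⟨p, hlt, hp, h1⟩ := inf_of (R := fun p => p.Prime ∧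
    ((p : ℤ) ∣ discr K ∨ ∃ v : HeightOneSpectrum (𝓞 K),
        (p : 𝓞 K) ∈ v.asIdeal ∧ NonWieferich K (3 - (φ : K)) v)) ⟨x₀, fun x hx => h K φ hφ x hx⟩
    (B + (discr K).natAbs)
  rcases h1 with h1 | ⟨v, hv, hn⟩
  · have h2 := Nat.le_of_dvd (Int.natAbs_pos.2 (discr_ne_zero K)) (Int.natCast_dvd.1 h1)
    omega
  · rw [← hu] at hn
    exact hB p hp (by omega) v hv hn

lemma neg_one_mem : (-1 : ℚˣ) ∈ W ℚ := W_torsion (k := 2) (by norm_num) (by norm_num)

/-- no `5 ^ a φ ^ b` with `a, b ≠ 0` is in `W K` -/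
theorem five_not_mem {φ : 𝓞 K} (hφ : φ ^ 2 = φ + 1) {a b : ℤ} (ha : a ≠ 0) (hb : b ≠ 0) {u : Kˣ}
    (hu : (u : K) = (5 : K) ^ a * (φ : K) ^ b) : u ∉ W K := by
  intro hW
  have hK : (φ : K) ^ 2 = (φ : K) + 1 := by exact_mod_cast congrArg (algebraMap (𝓞 K) K) hφ
  have hφ0 : (φ : K) ≠ 0 := by
    intro h
    rw [h] at hK
    norm_num at hK
  have h50 : (5 : K) ≠ 0 := by norm_num
  have h5q : (5 : ℚ) ≠ 0 := by norm_num
  set f : Kˣ := Units.mk0 (5 : K) h50 with hf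
  set g : Kˣ := Units.mk0 (φ : K) hφ0 with hg
  have hug : u = f ^ a * g ^ b := by
    apply Units.ext
    rw [hu, Units.val_mul, Units.val_zpow_eq_zpow_val, Units.val_zpow_eq_zpow_val]
    rfl
  -- the norm of `φ`
  have hN : |Algebra.norm ℚ (φ : K)| = 1 := by
    have hunit : IsUnit φ := by
      refine IsUnit.of_mul_eq_one (φ - 1) ?_
      linear_combination hφ
    exact_mod_cast (NumberField.isUnit_iff_norm.1 hunit)
  -- `5` is in `W ℚ`
  have h1 := norm_mem hW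
  set r : ℚˣ := Units.mk0 (5 : ℚ) h5q with hr
  have hr1 : r ∈ W ℚ := by
    have h2 : (r ^ (Module.finrank ℚ K * a.natAbs)) ∈ W ℚ := by
      have h3 : ((Units.map (Algebra.norm ℚ : K →* ℚ) u) ^ 2) ∈ W ℚ := (W ℚ).pow_mem h1 2
      have h4 : (Units.map (Algebra.norm ℚ : K →* ℚ) u) ^ 2 =
          (r ^ ((Module.finrank ℚ K : ℤ) * a)) ^ 2 := by
        rw [hug, map_mul, map_zpow, map_zpow, mul_pow]
        have h5 : Units.map (Algebra.norm ℚ : K →* ℚ) f = r ^ Module.finrank ℚ K := by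
          apply Units.ext
          change Algebra.norm ℚ (5 : K) = (5 : ℚ) ^ Module.finrank ℚ K
          have h6 : (5 : K) = algebraMap ℚ K 5 := by simp
          rw [h6, Algebra.norm_algebraMap]
        have h6 : (Units.map (Algebra.norm ℚ : K →* ℚ) g) ^ 2 = 1 := by
          apply Units.ext
          change (Algebra.norm ℚ (φ : K)) ^ 2 = 1
          rw [← sq_abs, hN, one_pow]
        have h7 : ((Units.map (Algebra.norm ℚ : K →* ℚ) g) ^ b) ^ 2 = 1 := by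
          rw [← zpow_natCast, ← zpow_mul, mul_comm, zpow_mul, zpow_natCast, h6, one_zpow]
        rw [h7, mul_one, h5, ← zpow_natCast r, ← zpow_mul]
      rw [h4] at h3
      have h5 := W_root (k := 2) (by norm_num) h3
      rcases Int.natAbs_eq a with h6 | h6
      · rw [h6, ← Nat.cast_mul, zpow_natCast] at h5
        exact h5
      · rw [h6, mul_neg, ← Nat.cast_mul, zpow_neg, zpow_natCast] at h5
        have := (W ℚ).inv_mem h5
        rwa [inv_inv] at this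
    exact W_root (Nat.mul_pos Module.finrank_pos (Int.natAbs_pos.2 ha)) h2
  have h2 : f ∈ W K := by
    have h3 := rat_mem (K := K) hr1
    convert h3 using 1
    apply Units.ext
    change (5 : K) = algebraMap ℚ K 5
    simp
  have h3 : g ^ b ∈ W K := by
    have h4 := (W K).mul_mem ((W K).inv_mem ((W K).zpow_mem h2 a)) hW
    rwa [hug, inv_mul_cancel_left] at h4
  have h4 : g ∈ W K := by
    have h5 : g ^ b.natAbs ∈ W K := by
      rcases Int.natAbs_eq b with h6 | h6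
      · rw [h6, zpow_natCast] at h3
        exact h3
      · rw [h6, zpow_neg, zpow_natCast] at h3
        have := (W K).inv_mem h3
        rwa [inv_inv] at this
    exact W_root (Int.natAbs_pos.2 hb) h5
  have h30 : (3 : K) - (φ : K) ≠ 0 := by
    intro h
    have h5 : (3 - (φ : K)) * (2 + (φ : K)) = 5 := by linear_combination -hK
    rw [h, zero_mul] at h5
    exact h50 h5.symm
  refine gold_not_mem hφ (u := Units.mk0 _ h30) rfl (W_root (k := 2) (by norm_num) ?_)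
  have h5 : Units.mk0 _ h30 ^ 2 = f * (g ^ 2)⁻¹ := by
    apply Units.ext
    rw [Units.val_pow_eq_pow_val, Units.val_mul, Units.val_inv_eq_inv_val, Units.val_pow_eq_pow_val]
    change (3 - (φ : K)) ^ 2 = 5 * ((φ : K) ^ 2)⁻¹
    rw [eq_mul_inv_iff_mul_eq₀ (pow_ne_zero 2 hφ0)]
    linear_combination ((φ : K) ^ 2 - 5 * (φ : K) + 5) * hK
  rw [h5]
  exact (W K).mul_mem h2 ((W K).inv_mem ((W K).pow_mem h4 2))

end Group

end Run7.h128.NW.Phi
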