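import Pool.Agent.Run7.h128.NW.Grp

/-!
# One prime number, all number fields

If the odd prime `p` is not a Wieferich prime to the base `b`, then no prime of any number field above
`p`, unramified over `p`, is a Wieferich prime to the base `b`.
-/

set_option autoImplicit false

namespace Run7.h128.NW

open NumberField IsDedekindDomain
open scoped WithZero
open Run7.h283.NW (NonWieferich discrete fermat norm_wief exists_place int_val norm_eq)

section Field

variable {K : Type} [Field K] [NumberField K]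

/-- integers which are small at an unramified prime -/
lemma int_sq_dvd {p : ℕ} (hp : p.Prime) {v : HeightOneSpectrum (𝓞 K)} (hv : (p : 𝓞 K) ∈ v.asIdeal)
    (hr : (p : 𝓞 K) ∉ v.asIdeal ^ 2) {n : ℤ} (h : v.valuation K (n : K) ≤ WithZero.exp (-2 : ℤ)) :
    (p : ℤ) ^ 2 ∣ n := by
  have hlt1 : WithZero.exp (-2 : ℤ) < (1 : ℤᵐ⁰) := by
    rw [← WithZero.exp_zero, WithZero.exp_lt_exp]
    norm_num
  by_cases h1 : (p : ℤ) ∣ n
  · obtain ⟨m, rfl⟩ := h1
    by_cases h2 : (p : ℤ) ∣ m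
    · obtain ⟨l, rfl⟩ := h2
      exact ⟨l, by ring⟩
    · exfalso
      apply hr
      have h3 := int_val p hp v hv h2
      push_cast at h
      rw [map_mul, h3, mul_one] at h
      have h4 : ((p : ℕ) : K) = algebraMap (𝓞 K) K ((p : ℕ) : 𝓞 K) := by simp
      rw [h4, v.valuation_of_algebraMap] at h
      have h5 : (-2 : ℤ) = -((2 : ℕ) : ℤ) := by norm_num
      rw [h5] at h
      exact (v.intValuation_le_pow_iff_mem _ 2).1 h
  · have h3 := int_val p hp v hv h1
    rw [h3] at h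
    exact absurd (lt_of_le_of_lt h hlt1) (lt_irrefl _)

lemma nat_not_mem {p : ℕ} (hp : p.Prime) {v : HeightOneSpectrum (𝓞 K)} (hv : (p : 𝓞 K) ∈ v.asIdeal)
    {k : ℕ} (hk : ¬ p ∣ k) : ((k : ℕ) : 𝓞 K) ∉ v.asIdeal := by
  have h := int_val p hp v hv (m := (k : ℤ)) (by exact_mod_cast hk)
  rw [← val_eq_one_iff (K := K), map_natCast]
  exact_mod_cast h

lemma geom_mod {p f : ℕ} (hp : p.Prime) (hf : 1 ≤ f) :
    ∃ k : ℕ, p ^ f - 1 = (p - 1) * k ∧ ¬ p ∣ k := by
  refine ⟨∑ i ∈ Finset.range f, p ^ i, ?_, ?_⟩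
  · have h := Nat.geomSum_eq hp.two_le f
    rw [h]
    rw [Nat.mul_div_cancel' (Nat.sub_one_dvd_pow_sub_one p f)]
  · obtain ⟨g, rfl⟩ : ∃ g, f = g + 1 := ⟨f - 1, by omega⟩
    rw [Finset.sum_range_succ', pow_zero]
    intro h
    have h1 : p ∣ ∑ i ∈ Finset.range g, p ^ (i + 1) :=
      Finset.dvd_sum fun i _ => dvd_pow_self p (by omega)
    exact hp.one_lt.ne' (Nat.dvd_one.1 ((Nat.dvd_add_right h1).1 h))

/-- a rational base -/
theorem nat_nonWief {p b : ℕ} (hp : p.Prime) (hb : ¬ p ∣ b) (hW : ¬ p ^ 2 ∣ b ^ (p - 1) - 1)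
    {v : HeightOneSpectrum (𝓞 K)} (hv : (p : 𝓞 K) ∈ v.asIdeal) (hr : (p : 𝓞 K) ∉ v.asIdeal ^ 2) :
    NonWieferich K (b : K) v := by
  by_contra hcon
  apply hW
  have hb1 : v.valuation K (b : K) = 1 := by
    have h := int_val p hp v hv (m := (b : ℤ)) (by exact_mod_cast hb)
    exact_mod_cast h
  have hle := wief_le hb1 hcon
  obtain ⟨f, hf, -, hN⟩ := norm_eq hp v hv
  obtain ⟨k, hk, hpk⟩ := geom_mod hp hf
  rw [hN, hk, pow_mul] at hle
  have hb0 : 1 ≤ b := by
    rcases Nat.eq_zero_or_pos b with h | h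
    · rw [h] at hb; exact absurd (dvd_zero p) hb
    · exact h
  have hcast : ((b : K) ^ (p - 1) - 1) = (((b : ℤ) ^ (p - 1) - 1 : ℤ) : K) := by push_cast; ring
  have hdvd : (p : ℤ) ∣ (b : ℤ) ^ (p - 1) - 1 := by
    have := Fact.mk hp
    have h1 : ((b : ZMod p)) ≠ 0 := by
      rw [Ne, ZMod.natCast_eq_zero_iff]
      exact hb
    have h2 := ZMod.pow_card_sub_one_eq_one h1
    rw [← ZMod.intCast_zmod_eq_zero_iff_dvd]
    push_cast
    rw [h2, sub_self]
  have hlt : v.valuation K ((b : K) ^ (p - 1) - 1) < 1 := by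
    obtain ⟨m, hm⟩ := hdvd
    rw [hcast, hm]
    have h3 : (((p : ℤ) * m : ℤ) : K) = algebraMap (𝓞 K) K (((p : ℕ) : 𝓞 K) * (m : 𝓞 K)) := by
      push_cast
      simp
    rw [h3, v.valuation_of_algebraMap, v.intValuation_lt_one_iff_mem]
    exact Ideal.mul_mem_right _ _ hv
  rw [root_core hlt (nat_not_mem hp hv hpk), hcast] at hle
  have h4 := int_sq_dvd hp hv hr hle
  have h5 : 1 ≤ b ^ (p - 1) := Nat.one_le_pow _ _ hb0
  have h6 : ((b ^ (p - 1) - 1 : ℕ) : ℤ) = (b : ℤ) ^ (p - 1) - 1 := by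
    rw [Nat.cast_sub h5]
    push_cast
    ring
  rw [← h6] at h4
  exact_mod_cast h4

/-- roots of a power of a base -/
theorem root_nonWief {p b : ℕ} (hp : p.Prime) (hb : ¬ p ∣ b) (hW : ¬ p ^ 2 ∣ b ^ (p - 1) - 1)
    {v : HeightOneSpectrum (𝓞 K)} (hv : (p : 𝓞 K) ∈ v.asIdeal) (hr : (p : 𝓞 K) ∉ v.asIdeal ^ 2)
    {α : K} {n m : ℕ} (hn : 0 < n) (hm : ¬ p ∣ m) (h : α ^ n = (b : K) ^ m) :
    NonWieferich K α v := by
  have hb1 : v.valuation K (b : K) = 1 := by
    have h := int_val p hp v hv (m := (b : ℤ)) (by exact_mod_cast hb)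
    exact_mod_cast h
  have hα : v.valuation K α = 1 := by
    have h1 : v.valuation K α ^ n = 1 := by rw [← map_pow, h, map_pow, hb1, one_pow]
    exact (pow_eq_one_iff.1 h1).resolve_right hn.ne'
  by_contra hcon
  have h1 := nonWief_pow hα hcon n
  rw [h] at h1
  exact nonWief_root (nat_not_mem hp hv hm) hb1 h1 (nat_nonWief hp hb hW hv hr)

/-- at most one of `p` consecutive multiples `b ^ j α` is a Wieferich base -/
theorem chain_nonWief {p b : ℕ} (hp : p.Prime) (hb : ¬ p ∣ b) (hW : ¬ p ^ 2 ∣ b ^ (p - 1) - 1)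
    {v : HeightOneSpectrum (𝓞 K)} (hv : (p : 𝓞 K) ∈ v.asIdeal) (hr : (p : 𝓞 K) ∉ v.asIdeal ^ 2)
    {α : K} (hα : v.valuation K α = 1) {i j : ℕ} (hij : i < j) (hj : ¬ p ∣ j - i) :
    NonWieferich K ((b : K) ^ i * α) v ∨ NonWieferich K ((b : K) ^ j * α) v := by
  have hb1 : v.valuation K (b : K) = 1 := by
    have h := int_val p hp v hv (m := (b : ℤ)) (by exact_mod_cast hb)
    exact_mod_cast h
  by_contra hcon
  push Not at hcon
  obtain ⟨h1, h2⟩ := hcon
  have e1 : v.valuation K ((b : K) ^ i * α) = 1 := by rw [map_mul, map_pow, hb1, one_pow, hα, one_mul]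
  have e2 : v.valuation K ((b : K) ^ j * α) = 1 := by rw [map_mul, map_pow, hb1, one_pow, hα, one_mul]
  have h3 := nonWief_mul e2 (by rw [map_inv₀, e1, inv_one]) h2 (nonWief_inv e1 h1)
  have hb0 : (b : K) ≠ 0 := by
    intro h
    rw [h, map_zero] at hb1
    exact zero_ne_one hb1
  have hα0 : α ≠ 0 := by
    intro h
    rw [h, map_zero] at hα
    exact zero_ne_one hα
  have h4 : (b : K) ^ j * α * ((b : K) ^ i * α)⁻¹ = (b : K) ^ (j - i) := by
    obtain ⟨d, rfl⟩ : ∃ d, j = i + d := ⟨j - i, by omega⟩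
    rw [Nat.add_sub_cancel_left, pow_add]
    field_simp
  rw [h4] at h3
  exact nonWief_root (nat_not_mem hp hv hj) hb1 h3 (nat_nonWief hp hb hW hv hr)

end Field

end Run7.h128.NW
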