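import Pool.Agent.Run7.h128.NW.Uni

/-!
# The norm maps `W K` into `W ℚ`, and `W K ∩ ℚ = W ℚ`
-/

set_option autoImplicit false

namespace Run7.h128.NW

open NumberField IsDedekindDomain
open scoped WithZero
open Run7.h283.NW (NonWieferich discrete fermat norm_eq norm_wief val_pow_le int_val Gp unit_large
  not_mem_sq)

section Field

variable {K : Type} [Field K] [NumberField K]

/-- a rational number divisible by `p²` is small at the primes above `p` -/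
lemma val_frac {p : ℕ} (hp : p.Prime) {v : HeightOneSpectrum (𝓞 K)} (hv : (p : 𝓞 K) ∈ v.asIdeal)
    {a b : ℤ} (h1 : (p : ℤ) ^ 2 ∣ a) (h2 : ¬ (p : ℤ) ∣ b) :
    v.valuation K ((a : K) / (b : K)) ≤ WithZero.exp (-2 : ℤ) := by
  rw [map_div₀, int_val p hp v hv h2, div_one]
  obtain ⟨m, hm⟩ := h1
  have h4 : (a : K) = algebraMap (𝓞 K) K (((p : ℕ) : 𝓞 K) ^ 2 * (m : 𝓞 K)) := by
    rw [hm]
    push_cast
    simp
  rw [h4, v.valuation_of_algebraMap]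
  have h5 : (-2 : ℤ) = -((2 : ℕ) : ℤ) := by norm_num
  rw [h5]
  exact (v.intValuation_le_pow_iff_mem _ 2).2 (Ideal.mul_mem_right _ _ (Ideal.pow_mem_pow hv 2))

lemma val_of_dvd {p : ℕ} (hp : p.Prime) {v : HeightOneSpectrum (𝓞 K)} (hv : (p : 𝓞 K) ∈ v.asIdeal)
    {r : ℚ} (h1 : (p : ℤ) ^ 2 ∣ r.num) (h2 : ¬ (p : ℤ) ∣ r.den) :
    v.valuation K (algebraMap ℚ K r) ≤ WithZero.exp (-2 : ℤ) := by
  have e : algebraMap ℚ K r = (r.num : K) / ((r.den : ℤ) : K) := by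
    rw [eq_ratCast]
    nth_rewrite 1 [← Rat.num_div_den r]
    push_cast
    rfl
  rw [e]
  exact val_frac hp hv h1 h2

/-- `p`-adically small rational numbers -/
lemma dvd_of_padic {p : ℕ} [Fact p.Prime] {r : ℚ} (h : ‖((r : ℚ) : ℚ_[p])‖ ≤ (p : ℝ) ^ (-2 : ℤ)) :
    (p : ℤ) ^ 2 ∣ r.num ∧ ¬ (p : ℤ) ∣ r.den := by
  have hp := (Fact.out : p.Prime)
  have h1 : ((r : ℚ) : ℚ_[p]) * ((r.den : ℤ) : ℚ_[p]) = ((r.num : ℤ) : ℚ_[p]) := by
    have h2 : r * (r.den : ℚ) = r.num := Rat.mul_den_eq_num r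
    exact_mod_cast congrArg (Rat.cast : ℚ → ℚ_[p]) h2
  have h3 : ‖((r.num : ℤ) : ℚ_[p])‖ ≤ (p : ℝ) ^ (-((2 : ℕ) : ℤ)) := by
    rw [← h1, norm_mul]
    calc _ ≤ (p : ℝ) ^ (-2 : ℤ) * 1 :=
          mul_le_mul h (Padic.norm_int_le_one _) (norm_nonneg _) (by positivity)
      _ = _ := by rw [mul_one]; norm_num
  have h4 : (p : ℤ) ^ 2 ∣ r.num := by
    have := (Padic.norm_int_le_pow_iff_dvd r.num 2).1 h3
    exact_mod_cast this
  refine ⟨h4, fun h5 => ?_⟩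
  have h6 : (p : ℤ) ∣ r.num := (dvd_pow_self _ two_ne_zero).trans h4
  have h7 : IsCoprime r.num (r.den : ℤ) := Rat.isCoprime_num_den r
  exact (Nat.prime_iff_prime_int.1 hp).not_isUnit (h7.isUnit_of_dvd' h6 h5)

lemma exists_above {p : ℕ} (hp : p.Prime) : ∃ v : HeightOneSpectrum (𝓞 K), (p : 𝓞 K) ∈ v.asIdeal := by
  have h1 : ¬ IsUnit ((p : ℕ) : 𝓞 K) := by
    intro h
    have h2 : (Ideal.span {((p : ℕ) : 𝓞 K)}) = ⊤ := Ideal.span_singleton_eq_top.2 h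
    have h3 := Ideal.absNorm_span_natCast (S := 𝓞 K) p
    rw [h2, Ideal.absNorm_top] at h3
    have h4 : 0 < Module.finrank ℤ (𝓞 K) := Module.finrank_pos
    have h5 := Nat.one_lt_pow h4.ne' hp.one_lt
    omega
  obtain ⟨M, hM, hle⟩ := Ideal.exists_le_maximal (Ideal.span {((p : ℕ) : 𝓞 K)})
    (fun h => h1 (Ideal.span_singleton_eq_top.1 h))
  have hmem : ((p : ℕ) : 𝓞 K) ∈ M := hle (Ideal.mem_span_singleton_self _)
  refine ⟨⟨M, hM.isPrime, ?_⟩, hmem⟩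
  rintro rfl
  rw [Ideal.mem_bot] at hmem
  exact hp.ne_zero (by exact_mod_cast hmem)

lemma norm_q {p : ℕ} (hp : p.Prime) (w : HeightOneSpectrum (𝓞 ℚ)) (hw : (p : 𝓞 ℚ) ∈ w.asIdeal) :
    Ideal.absNorm w.asIdeal = p := by
  obtain ⟨f, hf1, hf2, hf⟩ := norm_eq hp w hw
  rw [RingOfIntegers.rank, Module.finrank_self] at hf2
  have : f = 1 := le_antisymm hf2 hf1
  rw [hf, this, pow_one]

/-- **Norms.** The norm of an element of `W K` is in `W ℚ`. -/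
theorem norm_mem {α : Kˣ} (h : α ∈ W K) : Units.map (Algebra.norm ℚ : K →* ℚ) α ∈ W ℚ := by
  obtain ⟨B, hB⟩ := W_large h
  obtain ⟨C, hC⟩ := norm_wief (α : K) α.ne_zero
  refine W_of_large (max B C) fun p hp hlt w hw hn => ?_
  have : Fact p.Prime := ⟨hp⟩
  set N : ℕ := (Module.finrank ℤ (𝓞 K)).factorial with hN
  have hNpos : 1 ≤ N := Nat.one_le_iff_ne_zero.2 (Nat.factorial_ne_zero _)
  have h1 := hC p hp ((le_max_right _ _).trans_lt hlt) N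
    (fun f hf1 hf2 => Nat.dvd_factorial hf1 hf2)
    (fun v hv => hB p hp ((le_max_left _ _).trans_lt hlt) v hv)
  have h2 : (((Units.map (Algebra.norm ℚ : K →* ℚ) α : ℚˣ) : ℚ)) = Algebra.norm ℚ (α : K) := rfl
  rw [h2] at hn
  set r := Algebra.norm ℚ (α : K) with hr
  have h3 : ‖((r ^ (p ^ N - 1) - 1 : ℚ) : ℚ_[p])‖ ≤ (p : ℝ) ^ (-2 : ℤ) := by
    have := h1.2
    push_cast
    exact this
  obtain ⟨h4, h5⟩ := dvd_of_padic h3
  have h6 := val_frac (K := ℚ) hp hw h4 h5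
  have h6' : (((r ^ (p ^ N - 1) - 1).num : ℤ) : ℚ) / (((r ^ (p ^ N - 1) - 1).den : ℤ) : ℚ) =
      r ^ (p ^ N - 1) - 1 := by
    push_cast
    exact Rat.num_div_den _
  rw [h6'] at h6
  obtain ⟨k, hk, hpk⟩ := geom_mod hp hNpos
  have h7 : r ^ (p ^ N - 1) - 1 = (r ^ (Ideal.absNorm w.asIdeal - 1)) ^ k - 1 := by
    rw [norm_q hp w hw, hk, pow_mul]
  rw [h7, root_core (fermat w hn.1) (nat_not_mem hp hw hpk)] at h6
  exact not_nonWief h6 hn

/-- a rational number is in `W K` if it is in `W ℚ` -/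
theorem rat_mem {r : ℚˣ} (h : r ∈ W ℚ) : Units.map (algebraMap ℚ K : ℚ →* K) r ∈ W K := by
  obtain ⟨B, hB⟩ := W_large h
  obtain ⟨C, hC⟩ := unit_large (K := ℚ) (y := (r : ℚ)) r.ne_zero
  refine W_of_large (max B C) fun p hp hlt v hv hn => ?_
  obtain ⟨w, hw⟩ := exists_above (K := ℚ) hp
  have h1 := hB p hp ((le_max_left _ _).trans_lt hlt) w hw
  have h2 := hC p hp ((le_max_right _ _).trans_lt hlt) w hw
  have h3 := wief_le h2 h1
  rw [norm_q hp w hw] at h3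
  set x : ℚ := (r : ℚ) ^ (p - 1) - 1 with hx
  have hram : ((p : ℕ) : 𝓞 ℚ) ∉ w.asIdeal ^ 2 := by
    refine not_mem_sq hp ?_ w hw
    rw [Rat.numberField_discr]
    intro h4
    exact (Nat.prime_iff_prime_int.1 hp).not_isUnit (isUnit_of_dvd_one h4)
  have hlt1 : WithZero.exp (-2 : ℤ) < (1 : ℤᵐ⁰) := by
    rw [← WithZero.exp_zero, WithZero.exp_lt_exp]
    norm_num
  have e : x = (x.num : ℚ) / ((x.den : ℤ) : ℚ) := by
    nth_rewrite 1 [← Rat.num_div_den x]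
    push_cast
    rfl
  have hden : ¬ (p : ℤ) ∣ x.den := by
    intro h4
    have h5 : ¬ (p : ℤ) ∣ x.num := fun h6 =>
      (Nat.prime_iff_prime_int.1 hp).not_isUnit ((Rat.isCoprime_num_den x).isUnit_of_dvd' h6 h4)
    rw [e, map_div₀, int_val p hp w hw h5] at h3
    have h6 := int_le_one' w (x.den : ℤ)
    have h7 : w.valuation ℚ (((x.den : ℤ)) : ℚ) ≠ 0 := by
      rw [Ne, map_eq_zero]
      exact_mod_cast x.den_ne_zero
    have h8 : (1 : ℤᵐ⁰) ≤ 1 / w.valuation ℚ (((x.den : ℤ)) : ℚ) := by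
      rw [one_div]
      exact (one_le_inv₀ (zero_lt_iff.2 h7)).2 h6
    exact absurd (h8.trans h3) (not_le.2 hlt1)
  have hnum : (p : ℤ) ^ 2 ∣ x.num := by
    rw [e, map_div₀, int_val p hp w hw hden, div_one] at h3
    exact int_sq_dvd hp hw hram h3
  have h4 := val_of_dvd (K := K) hp hv hnum hden
  have h5 : algebraMap ℚ K x = ((Units.map (algebraMap ℚ K : ℚ →* K) r : Kˣ) : K) ^ (p - 1) - 1 := by
    rw [hx, map_sub, map_pow, map_one]
    rfl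
  rw [h5] at h4
  obtain ⟨f, hf1, -, hf⟩ := norm_eq hp v hv
  have h6 : p - 1 ∣ Ideal.absNorm v.asIdeal - 1 := by
    rw [hf]
    simpa using Nat.pow_sub_one_dvd_pow_sub_one p (one_dvd f)
  exact not_nonWief ((val_pow_le v hn.1 h6).trans h4) hn
where
  int_le_one' (w : HeightOneSpectrum (𝓞 ℚ)) (n : ℤ) : w.valuation ℚ (n : ℚ) ≤ 1 := by
    have h : (n : ℚ) = algebraMap (𝓞 ℚ) ℚ (n : 𝓞 ℚ) := by simp
    rw [h]
    exact w.valuation_le_one _

/-- **Rational numbers.** `W K ∩ ℚ = W ℚ` -/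
theorem rat_mem_iff (r : ℚˣ) : Units.map (algebraMap ℚ K : ℚ →* K) r ∈ W K ↔ r ∈ W ℚ := by
  refine ⟨fun h => ?_, rat_mem⟩
  have h1 := norm_mem h
  refine W_root (k := Module.finrank ℚ K) Module.finrank_pos ?_
  convert h1 using 1
  apply Units.ext
  change (r : ℚ) ^ Module.finrank ℚ K = Algebra.norm ℚ (algebraMap ℚ K (r : ℚ))
  rw [Algebra.norm_algebraMap]

end Field

end Run7.h128.NW
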